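import Mathlib
import Pool.Agent.H713R2.AR.AF5
import Pool.Agent.H713R2.Ext3

/-!
The area formula for the exterior map of a Multibrot set, on the unit circle.
-/

set_option autoImplicit false

open Complex Topology Filter Metric MeasureTheory Set Polynomial

namespace Pool.Agent.U608.ML

open Pool.Agent.H713R2 Pool.Agent.H713R2.AR Pool.Agent.H712R2 N62a1eb23

/-- Abel's theorem for nonnegative coefficients. -/
theorem abel_nonneg {e : ℕ → ℝ} (he : ∀ k, 0 ≤ e k) {ρ : ℕ → ℝ} (h0 : ∀ i, 0 < ρ i)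
    (h1 : ∀ i, ρ i < 1) (hρ : Tendsto ρ atTop (𝓝 1)) {T : ℕ → ℝ} {L : ℝ}
    (hT : ∀ i, HasSum (fun k => e k * ρ i ^ (2 * k)) (T i)) (hL : Tendsto T atTop (𝓝 L)) :
    HasSum e L := by
  have hpart : ∀ s : Finset ℕ, ∑ k ∈ s, e k ≤ L := by
    intro s
    have h2 : Tendsto (fun i => ∑ k ∈ s, e k * ρ i ^ (2 * k)) atTop (𝓝 (∑ k ∈ s, e k * 1 ^ (2 * k))) :=
      tendsto_finsetSum _ fun k _ => (hρ.pow (2 * k)).const_mul (e k)
    simp only [one_pow, mul_one] at h2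
    refine le_of_tendsto_of_tendsto' h2 hL fun i => ?_
    refine sum_le_hasSum s (fun k _ => ?_) (hT i)
    exact mul_nonneg (he k) (pow_nonneg (h0 i).le _)
  have hs : Summable e := summable_of_sum_le he hpart
  have h3 : ∑' k, e k ≤ L := hs.tsum_le_of_sum_le hpart
  have h4 : L ≤ ∑' k, e k := by
    refine le_of_tendsto' hL fun i => ?_
    rw [← (hT i).tsum_eq]
    refine Summable.tsum_le_tsum (fun k => ?_) (hT i).summable hs
    exact mul_le_of_le_one_right (he k) (pow_le_one₀ (h0 i).le (h1 i).le)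
  have h5 : ∑' k, e k = L := le_antisymm h3 h4
  rw [← h5]
  exact hs.hasSum

theorem isExt_of_beta {d : ℕ} {β : ℂ → ℂ} (hβ : IsBeta d β) : IsExt 1 β :=
  ⟨hβ.diff, hβ.zero, hβ.inj⟩

/-- the complements of the images decrease to the Multibrot set -/
theorem iInter_compl_UU {d : ℕ} {β : ℂ → ℂ} (hβ : IsBeta d β) {ρ : ℕ → ℝ}
    (h1 : ∀ i, ρ i < 1) (hρ : Tendsto ρ atTop (𝓝 1)) :
    ⋂ i, (UU β (ρ i))ᶜ = multibrotSet d := by
  ext c
  simp only [mem_iInter, mem_compl_iff]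
  constructor
  · intro h
    by_contra hc
    obtain ⟨x, hx, hx0, hxc⟩ := hβ.surj c hc
    obtain ⟨i, hi⟩ := (hρ.eventually (lt_mem_nhds (mem_ball_zero_iff.mp hx))).exists
    exact h i ⟨x, ⟨hx0, hi⟩, hxc⟩
  · rintro hc i ⟨x, ⟨hx0, hx⟩, hxc⟩
    have hxc' : x⁻¹ * β x = c := hxc
    exact hβ.notMem x (mem_ball_zero_iff.mpr (hx.trans (h1 i))) hx0 (by rw [hxc']; exact hc)

theorem tendsto_area {d : ℕ} {β : ℂ → ℂ} (hβ : IsBeta d β) {ρ : ℕ → ℝ}
    (h1 : ∀ i, ρ i < 1) (hρ : Tendsto ρ atTop (𝓝 1)) (hm : Monotone ρ) {f : ℂ → ℝ}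
    (hf : IntegrableOn f (UU β (ρ 0))ᶜ) :
    Tendsto (fun i => ∫ z in (UU β (ρ i))ᶜ, f z) atTop (𝓝 (∫ z in multibrotSet d, f z)) := by
  rw [← iInter_compl_UU hβ h1 hρ]
  refine tendsto_setIntegral_of_antitone (fun i => ?_) (fun i j hij => ?_) ⟨0, hf⟩
  · exact (isOpen_UU (isExt_of_beta hβ) (h1 i).le).measurableSet.compl
  · apply compl_subset_compl.mpr
    rintro c ⟨x, ⟨hx0, hx⟩, hxc⟩
    exact ⟨x, ⟨hx0, hx.trans_le (hm hij)⟩, hxc⟩

/-- **The area formula on the unit circle.** -/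
theorem area_circle {d : ℕ} {β : ℂ → ℂ} (hβ : IsBeta d β) {Q : ℂ[X]} {D : ℕ} {H : ℂ → ℂ}
    (hH : DifferentiableOn ℂ H (ball 0 1))
    (hHQ : ∀ x ∈ ball (0 : ℂ) 1, x ≠ 0 → H x = x ^ D * Q.eval (x⁻¹ * β x)) :
    HasSum (fun k : ℕ => ((D : ℝ) - k) * ‖tc H k‖ ^ 2)
      (1 / Real.pi * ∫ z in multibrotSet d, ‖(derivative Q).eval z‖ ^ 2) := by
  set ρ : ℕ → ℝ := fun i => 1 - ((i : ℝ) + 2)⁻¹ with hρd
  have hpos : ∀ i : ℕ, (0 : ℝ) < (i : ℝ) + 2 := fun i => by positivity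
  have h0 : ∀ i, 0 < ρ i := by
    intro i
    have : ((i : ℝ) + 2)⁻¹ < 1 := inv_lt_one_of_one_lt₀ (by have : (0:ℝ) ≤ i := i.cast_nonneg; linarith)
    simp only [hρd]
    linarith
  have h1 : ∀ i, ρ i < 1 := by
    intro i
    have : 0 < ((i : ℝ) + 2)⁻¹ := inv_pos.mpr (hpos i)
    simp only [hρd]
    linarith
  have hρ : Tendsto ρ atTop (𝓝 1) := by
    have h2 : Tendsto (fun i : ℕ => ((i : ℝ) + 2)⁻¹) atTop (𝓝 0) :=
      tendsto_inv_atTop_zero.comp (tendsto_atTop_add_const_right _ _ tendsto_natCast_atTop_atTop)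
    have h3 := h2.const_sub 1
    rwa [sub_zero] at h3
  have hm : Monotone ρ := by
    intro i j hij
    simp only [hρd]
    have : ((j : ℝ) + 2)⁻¹ ≤ ((i : ℝ) + 2)⁻¹ := by
      have hij' : (i : ℝ) ≤ j := by exact_mod_cast hij
      gcongr
    linarith
  have hform := fun i => area_formula (h0 i) (h1 i) (isExt_of_beta hβ) hH hHQ
  have hI := tendsto_area hβ h1 hρ hm (hform 0).2
  set I : ℕ → ℝ := fun i => ∫ z in (UU β (ρ i))ᶜ, ‖(derivative Q).eval z‖ ^ 2 with hId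
  set I0 : ℝ := ∫ z in multibrotSet d, ‖(derivative Q).eval z‖ ^ 2 with hI0
  -- the high part
  set c : ℕ → ℝ := fun k => ((D : ℝ) - k) * ‖tc H k‖ ^ 2 with hc
  have hF : Tendsto (fun i => ∑ k ∈ Finset.range D, c k * ρ i ^ (2 * k)) atTop
      (𝓝 (∑ k ∈ Finset.range D, c k)) := by
    have h2 : Tendsto (fun i => ∑ k ∈ Finset.range D, c k * ρ i ^ (2 * k)) atTop
        (𝓝 (∑ k ∈ Finset.range D, c k * 1 ^ (2 * k))) :=
      tendsto_finsetSum _ fun k _ => (hρ.pow (2 * k)).const_mul (c k)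
    simpa using h2
  have hhs : ∀ i, HasSum (fun k => c k * ρ i ^ (2 * k)) (ρ i ^ (2 * D) / Real.pi * I i) := by
    intro i
    refine (hform i).1.congr_fun ?_ |> id
    intro k
    simp only [hc]
    ring
  have hT : ∀ i, HasSum (fun k => (-c (k + D)) * ρ i ^ (2 * k))
      ((ρ i ^ (2 * D))⁻¹ * (∑ k ∈ Finset.range D, c k * ρ i ^ (2 * k) - ρ i ^ (2 * D) / Real.pi * I i)) := by
    intro i
    have h2 := (hasSum_nat_add_iff' D).mpr (hhs i)
    have h3 := h2.neg.mul_left (ρ i ^ (2 * D))⁻¹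
    rw [neg_sub] at h3
    have hne : ρ i ^ (2 * D) ≠ 0 := pow_ne_zero _ (h0 i).ne'
    convert! h3 using 1
    funext k
    rw [mul_add, pow_add]
    field_simp
  have hL : Tendsto (fun i => (ρ i ^ (2 * D))⁻¹ * (∑ k ∈ Finset.range D, c k * ρ i ^ (2 * k)
      - ρ i ^ (2 * D) / Real.pi * I i)) atTop (𝓝 (∑ k ∈ Finset.range D, c k - 1 / Real.pi * I0)) := by
    have h2 : Tendsto (fun i => ρ i ^ (2 * D)) atTop (𝓝 1) := by
      have := hρ.pow (2 * D)
      rwa [one_pow] at this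
    have h3 := h2.inv₀ one_ne_zero
    have h4 := h3.mul (hF.sub ((h2.div_const Real.pi).mul hI))
    rwa [inv_one, one_mul] at h4
  have he : ∀ k, 0 ≤ -c (k + D) := by
    intro k
    simp only [hc]
    push_cast
    have : 0 ≤ ‖tc H (k + D)‖ ^ 2 := by positivity
    have hk : (0 : ℝ) ≤ k := k.cast_nonneg
    nlinarith
  have hfin := abel_nonneg he h0 h1 hρ hT hL
  have h5 := hfin.neg
  simp only [neg_neg] at h5
  have h6 := (hasSum_nat_add_iff D).mp h5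
  convert! h6 using 1
  ring

end Pool.Agent.U608.ML
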