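import Mathlib
import Pool.Agent.U608.ML.L1
import Pool.Agent.H713R2.Main3
import Pool.Agent.H713R2.AR.PR

/-!
Coefficients of `Q(ψ(1/x)) x ^ m` for polynomials `Q` with `Q' = P_(n+1) G'`.
-/

set_option autoImplicit false

open Complex Topology Filter Metric MeasureTheory Set Polynomial

namespace Pool.Agent.U608.ML

open Pool.Agent.H713R2 Pool.Agent.H713R2.AR Pool.Agent.H712R2 N62a1eb23

/-- `x ^ m * Q (β x / x)`, as a holomorphic function. -/
noncomputable def Hm (β : ℂ → ℂ) (Q : ℂ[X]) (m : ℕ) : ℂ → ℂ := fun x =>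
  ∑ i ∈ Finset.range (m + 1), Q.coeff i * (β x ^ i * x ^ (m - i))

theorem Hm_eq (β : ℂ → ℂ) {Q : ℂ[X]} {m : ℕ} (hQ : Q.natDegree ≤ m) {x : ℂ} (hx : x ≠ 0) :
    Hm β Q m x = x ^ m * Q.eval (x⁻¹ * β x) := by
  rw [Polynomial.eval_eq_sum_range' (Nat.lt_succ_of_le hQ), Finset.mul_sum]
  refine Finset.sum_congr rfl fun i hi => ?_
  have hi' : i ≤ m := Nat.lt_succ_iff.mp (Finset.mem_range.mp hi)
  have h1 : x ^ m = x ^ (m - i) * x ^ i := by rw [← pow_add]; congr 1; omega
  rw [h1, mul_pow, inv_pow]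
  field_simp

theorem Hm_diff {β : ℂ → ℂ} (hβ : DifferentiableOn ℂ β (ball 0 1)) (Q : ℂ[X]) (m : ℕ) :
    DifferentiableOn ℂ (Hm β Q m) (ball 0 1) := by
  apply DifferentiableOn.fun_sum
  intro i _
  exact ((hβ.pow i).mul (differentiableOn_pow _)).const_mul _

/-- `x H' - m H` -/
noncomputable def WW (H : ℂ → ℂ) (m : ℕ) : ℂ → ℂ := fun x => x * deriv H x - m * H x

theorem WW_diff {H : ℂ → ℂ} (hH : DifferentiableOn ℂ H (ball 0 1)) (m : ℕ) :
    DifferentiableOn ℂ (WW H m) (ball 0 1) :=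
  (differentiableOn_id.mul (hH.deriv isOpen_ball)).sub (hH.const_mul _)

theorem tc_WW {H : ℂ → ℂ} (hH : DifferentiableOn ℂ H (ball 0 1)) (m k : ℕ) :
    tc (WW H m) k = ((k : ℂ) - m) * tc H k := by
  have h1 : DifferentiableOn ℂ (fun x => x * deriv H x) (ball 0 1) :=
    differentiableOn_id.mul (hH.deriv isOpen_ball)
  have h2 : DifferentiableOn ℂ (fun x => (m : ℂ) * H x) (ball 0 1) := hH.const_mul _
  have h3 : tc (fun x => (m : ℂ) * H x) k = m * tc H k := by
    have h4 := tc_unique (a := fun k => (m : ℂ) * tc H k) (F := fun x => (m : ℂ) * H x) one_pos h2 ?_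
    · rw [← h4]
    · filter_upwards [ball_mem_nhds (0 : ℂ) one_pos] with x hx
      simpa only [mul_assoc] using (hasSum_tc hH hx).mul_left (m : ℂ)
  unfold WW
  rw [tc_sub one_pos h1 h2, tc_id_mul_deriv hH, h3]
  ring

theorem WW_Hm {β : ℂ → ℂ} (hβ : DifferentiableOn ℂ β (ball 0 1)) {Q : ℂ[X]} {m : ℕ}
    (hQ : Q.natDegree ≤ m) {x : ℂ} (hx : x ∈ ball (0 : ℂ) 1) (hx0 : x ≠ 0) :
    WW (Hm β Q m) m x = x ^ m * ((derivative Q).eval (x⁻¹ * β x) * (deriv β x - x⁻¹ * β x)) := by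
  have hβx : HasDerivAt β (deriv β x) x :=
    (hβ.differentiableAt (isOpen_ball.mem_nhds hx)).hasDerivAt
  have h1 : HasDerivAt (fun z => z⁻¹ * β z) (-(x ^ 2)⁻¹ * β x + x⁻¹ * deriv β x) x :=
    (hasDerivAt_inv hx0).mul hβx
  have h2 : HasDerivAt (fun z => Q.eval (z⁻¹ * β z))
      ((derivative Q).eval (x⁻¹ * β x) * (-(x ^ 2)⁻¹ * β x + x⁻¹ * deriv β x)) x :=
    (Q.hasDerivAt _).comp x h1
  have h3 : HasDerivAt (fun z => z ^ m * Q.eval (z⁻¹ * β z))
      (m * x ^ (m - 1) * Q.eval (x⁻¹ * β x) +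
        x ^ m * ((derivative Q).eval (x⁻¹ * β x) * (-(x ^ 2)⁻¹ * β x + x⁻¹ * deriv β x))) x :=
    (hasDerivAt_pow m x).mul h2
  have h4 : deriv (Hm β Q m) x = m * x ^ (m - 1) * Q.eval (x⁻¹ * β x) +
        x ^ m * ((derivative Q).eval (x⁻¹ * β x) * (-(x ^ 2)⁻¹ * β x + x⁻¹ * deriv β x)) := by
    rw [← h3.deriv]
    apply Filter.EventuallyEq.deriv_eq
    filter_upwards [isOpen_ne.mem_nhds hx0] with z hz
    exact Hm_eq β hQ hz
  unfold WW
  rw [h4, Hm_eq β hQ hx0]
  rcases Nat.eq_zero_or_pos m with hm | hm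
  · subst hm
    simp
    field_simp
    ring
  · have h5 : x ^ m = x * x ^ (m - 1) := by rw [← pow_succ']; congr 1; omega
    rw [h5]
    field_simp
    ring

/-- The polynomial `Q` with `Q' = P_(n+1) G'`. -/
theorem exists_Q {d : ℕ} (hd : 2 ≤ d) (n : ℕ) {G : ℂ[X]} {p : ℕ} (hp : 1 ≤ p)
    (hG : G.natDegree ≤ p) : ∃ Q : ℂ[X], derivative Q = PP d (n + 1) * derivative G ∧
    Q.natDegree ≤ d ^ n + p := by
  obtain ⟨Q, hQ⟩ := Pool.Agent.H713R2.exists_antideriv (PP d (n + 1) * derivative G)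
  refine ⟨Q, hQ, ?_⟩
  have h1 : (derivative Q).natDegree ≤ d ^ n + (p - 1) := by
    rw [hQ]
    refine natDegree_mul_le.trans ?_
    rw [natDegree_PP hd]
    have := natDegree_derivative_le G
    omega
  by_contra hcon
  push Not at hcon
  have h2 : Q.natDegree ≠ 0 := by omega
  have h3 : (derivative Q).coeff (Q.natDegree - 1) = 0 := by
    apply coeff_eq_zero_of_natDegree_lt
    omega
  rw [coeff_derivative] at h3
  have h4 : Q.natDegree - 1 + 1 = Q.natDegree := by omega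
  rw [h4] at h3
  have h5 : ((Q.natDegree - 1 : ℕ) : ℂ) + 1 ≠ 0 := by
    exact_mod_cast Nat.succ_ne_zero (Q.natDegree - 1)
  have h6 := (mul_eq_zero.mp h3).resolve_right h5
  rw [coeff_natDegree, leadingCoeff_eq_zero] at h6
  rw [h6] at h2
  simp at h2

theorem WW_Q {d : ℕ} (hd : 2 ≤ d) {β : ℂ → ℂ} (hβ : IsBeta d β) (n : ℕ) {G Q : ℂ[X]} {p : ℕ}
    (hG : G.natDegree ≤ p) (hQ : derivative Q = PP d (n + 1) * derivative G)
    (hQd : Q.natDegree ≤ d ^ n + p) {x : ℂ} (hx : x ∈ ball (0 : ℂ) 1) :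
    WW (Hm β Q (d ^ n + p)) (d ^ n + p) x = BB d β n x * WW (Hm β G p) p x := by
  have key : ∀ x ∈ ball (0 : ℂ) 1, x ≠ 0 →
      WW (Hm β Q (d ^ n + p)) (d ^ n + p) x = BB d β n x * WW (Hm β G p) p x := by
    intro x hx hx0
    rw [WW_Hm hβ.diff hQd hx hx0, WW_Hm hβ.diff hG hx hx0, hQ, eval_mul, eval_PP,
      BB_eq hd β n x hx0, pow_add]
    ring
  by_cases hx0 : x = 0
  · subst hx0
    have hd1 : DifferentiableOn ℂ (WW (Hm β Q (d ^ n + p)) (d ^ n + p)) (ball 0 1) :=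
      WW_diff (Hm_diff hβ.diff _ _) _
    have hd2 : DifferentiableOn ℂ (fun x => BB d β n x * WW (Hm β G p) p x) (ball 0 1) :=
      (BB_diff hβ.diff n).mul (WW_diff (Hm_diff hβ.diff _ _) _)
    exact eq_at_zero one_pos (hd1.differentiableAt (ball_mem_nhds 0 one_pos)).continuousAt
      (hd2.differentiableAt (ball_mem_nhds 0 one_pos)).continuousAt key
  · exact key x hx hx0

/-- the error terms -/
noncomputable def ee (d : ℕ) (β : ℂ → ℂ) (n : ℕ) (F : ℂ → ℂ) : ℕ → ℂ :=
  tc (fun x => (BB d β n x - 1) * F x)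

theorem tc_Q {d : ℕ} (hd : 2 ≤ d) {β : ℂ → ℂ} (hβ : IsBeta d β) (n : ℕ) {G Q : ℂ[X]} {p : ℕ}
    (hG : G.natDegree ≤ p) (hQ : derivative Q = PP d (n + 1) * derivative G)
    (hQd : Q.natDegree ≤ d ^ n + p) (k : ℕ) :
    ((k : ℂ) - (d ^ n + p : ℕ)) * tc (Hm β Q (d ^ n + p)) k =
      tc (WW (Hm β G p) p) k + ee d β n (WW (Hm β G p) p) k := by
  rw [← tc_WW (Hm_diff hβ.diff _ _)]
  have hd1 : DifferentiableOn ℂ (WW (Hm β G p) p) (ball 0 1) := WW_diff (Hm_diff hβ.diff _ _) _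
  have hd2 : DifferentiableOn ℂ (fun x => (BB d β n x - 1) * WW (Hm β G p) p x) (ball 0 1) :=
    ((BB_diff hβ.diff n).sub (differentiableOn_const _)).mul hd1
  unfold ee
  rw [← tc_add one_pos hd1 hd2]
  have h1 : DifferentiableOn ℂ (WW (Hm β Q (d ^ n + p)) (d ^ n + p)) (ball 0 1) :=
    WW_diff (Hm_diff hβ.diff _ _) _
  have h2 := tc_unique (a := tc (fun x => WW (Hm β G p) p x +
    (BB d β n x - 1) * WW (Hm β G p) p x)) one_pos h1 ?_
  · rw [h2]
  · filter_upwards [ball_mem_nhds (0 : ℂ) one_pos] with x hx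
    rw [WW_Q hd hβ n hG hQ hQd hx]
    have h3 := hasSum_tc (hd1.add hd2) hx
    convert! h3 using 1
    simp only [Pi.add_apply]
    ring

theorem ee_zero {d : ℕ} {β : ℂ → ℂ} (hβ : IsBeta d β) (n : ℕ) {F : ℂ → ℂ}
    (hF : DifferentiableOn ℂ F (ball 0 1)) {k : ℕ} (hk : k < d ^ (n + 1) - 1) :
    ee d β n F k = 0 := by
  obtain ⟨C, hC⟩ := hβ.order n
  have hcont : ContinuousOn F (closedBall 0 (1 / 2)) :=
    hF.continuousOn.mono (closedBall_subset_ball (by norm_num))
  obtain ⟨B, hB⟩ := (isCompact_closedBall (0 : ℂ) (1 / 2)).exists_bound_of_continuousOn hcont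
  have hsub : ball (0 : ℂ) (1 / 2) ⊆ ball 0 1 := ball_subset_ball (by norm_num)
  refine tc_eq_zero_of_order (r := 1 / 2) (C := C * B) (by norm_num) hk ?_ ?_
  · exact ((((BB_diff hβ.diff n).sub (differentiableOn_const _)).mul hF).mono hsub)
  · intro x hx
    rw [norm_mul]
    have h1 := hC x hx
    have h2 := hB x (ball_subset_closedBall hx)
    have h3 : 0 ≤ ‖F x‖ := norm_nonneg _
    have h4 : 0 ≤ C * ‖x‖ ^ (d ^ (n + 1) - 1) := (norm_nonneg _).trans h1
    calc ‖BB d β n x - 1‖ * ‖F x‖ ≤ (C * ‖x‖ ^ (d ^ (n + 1) - 1)) * B := by gcongr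
      _ = C * B * ‖x‖ ^ (d ^ (n + 1) - 1) := by ring

/-- The Laurent coefficients of `G ∘ ψ` in terms of `β`. -/
theorem coeff_gamma {d : ℕ} {β : ℂ → ℂ} (hβ : IsBeta d β) {ψ : ℂ → ℂ}
    (hψ : IsExteriorMap (multibrotSet d) ψ) {G H : ℂ[X]} {γ : ℕ → ℂ}
    (h : ∀ z : ℂ, 1 < ‖z‖ → HasSum (fun m : ℕ => γ m / z ^ m) (G.eval (ψ z) - H.eval z))
    {p : ℕ} (hG : G.natDegree ≤ p) (hH : H.natDegree ≤ p) {l : ℕ} (hl : 1 ≤ l) :
    tc (Hm β G p) (p + l) = γ l := by
  set F : ℂ → ℂ := fun x => x * Hm β G p x with hF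
  have hd : DifferentiableOn ℂ (Hm β G p) (ball 0 1) := Hm_diff hβ.diff G p
  have hFd : DifferentiableOn ℂ F (ball 0 1) := differentiableOn_id.mul hd
  set a : ℕ → ℂ := fun k => (if k ∈ Finset.Icc 1 (p + 1) then H.coeff (p + 1 - k) else 0) +
    (if p + 1 ≤ k then γ (k - (p + 1)) else 0) with ha
  have h1 : a = tc F := by
    refine tc_unique one_pos hFd ?_
    filter_upwards [ball_mem_nhds (0 : ℂ) one_pos] with x hx
    by_cases hx0 : x = 0
    · subst hx0
      have h2 : (fun k => a k * (0 : ℂ) ^ k) = fun _ => 0 := by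
        funext k
        rcases Nat.eq_zero_or_pos k with hk | hk
        · subst hk
          simp [ha]
        · rw [zero_pow (by omega), mul_zero]
      rw [h2]
      simp only [hF, zero_mul]
      exact hasSum_zero
    · have h2 := (h x⁻¹ (one_lt_norm_inv hx hx0)).mul_left (x ^ (p + 1))
      rw [exteriorMap_unique hβ hψ (one_lt_norm_inv hx hx0), inv_inv] at h2
      have h3 : (fun m : ℕ => x ^ (p + 1) * (γ m / x⁻¹ ^ m)) = fun m => γ m * x ^ (m + (p + 1)) := by
        funext m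
        rw [inv_pow, div_inv_eq_mul, pow_add]
        ring
      rw [h3] at h2
      have h4 : HasSum (fun k => (if p + 1 ≤ k then γ (k - (p + 1)) else 0) * x ^ k)
          (x ^ (p + 1) * (G.eval (x⁻¹ * β x) - H.eval x⁻¹)) := by
        rw [← hasSum_nat_add_iff' (p + 1)]
        rw [Finset.sum_eq_zero, sub_zero]
        · convert! h2 using 1
          funext m
          rw [if_pos (by omega), Nat.add_sub_cancel]
        · intro k hk
          rw [if_neg (by have := Finset.mem_range.mp hk; omega), zero_mul]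
      have h5 : HasSum (fun k => (if k ∈ Finset.Icc 1 (p + 1) then H.coeff (p + 1 - k) else 0) * x ^ k)
          (x ^ (p + 1) * H.eval x⁻¹) := by
        have h6 : x ^ (p + 1) * H.eval x⁻¹ = ∑ k ∈ Finset.Icc 1 (p + 1),
            (if k ∈ Finset.Icc 1 (p + 1) then H.coeff (p + 1 - k) else 0) * x ^ k := by
          rw [Polynomial.eval_eq_sum_range' (Nat.lt_succ_of_le hH), Finset.mul_sum]
          refine Finset.sum_nbij' (fun i => p + 1 - i) (fun k => p + 1 - k) ?_ ?_ ?_ ?_ ?_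
          · intro i hi
            rw [Finset.mem_range] at hi
            rw [Finset.mem_Icc]
            omega
          · intro k hk
            rw [Finset.mem_Icc] at hk
            rw [Finset.mem_range]
            omega
          · intro i hi
            rw [Finset.mem_range] at hi
            omega
          · intro k hk
            rw [Finset.mem_Icc] at hk
            omega
          · intro i hi
            rw [Finset.mem_range] at hi
            rw [if_pos (by rw [Finset.mem_Icc]; omega), show p + 1 - (p + 1 - i) = i by omega]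
            have h7 : x ^ (p + 1) = x ^ (p + 1 - i) * x ^ i := by
              rw [← pow_add]; congr 1; omega
            rw [h7, inv_pow]
            field_simp
        rw [h6]
        apply hasSum_sum_of_ne_finset_zero
        intro k hk
        rw [if_neg hk, zero_mul]
      have h8 := h5.add h4
      have h9 : x ^ (p + 1) * H.eval x⁻¹ + x ^ (p + 1) * (G.eval (x⁻¹ * β x) - H.eval x⁻¹) = F x := by
        simp only [hF]
        rw [Hm_eq β hG hx0, pow_succ]
        ring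
      rw [h9] at h8
      convert! h8 using 1
      funext k
      simp only [ha]
      ring
  have h2 : tc F (p + l + 1) = tc (Hm β G p) (p + l) := tc_id_mul one_pos hd _
  rw [← h2, ← h1]
  simp only [ha]
  rw [if_neg (by rw [Finset.mem_Icc]; omega), if_pos (by omega), zero_add]
  congr 1
  omega

end Pool.Agent.U608.ML
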