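import Mathlib
import Pool.Agent.U608.ML.L2
import Pool.Agent.H713R2.AR.AF4

/-!
Multiplication by a bounded function of high order.
-/

set_option autoImplicit false

open Complex Topology Filter Metric MeasureTheory Set

namespace Pool.Agent.U608.ML

open Pool.Agent.H713R2 Pool.Agent.H713R2.AR Pool.Agent.H712R2 N62a1eb23

/-- The Schwarz lemma for functions of order `K`. -/
theorem schwarz_order {C : ℝ} (K : ℕ) : ∀ {F : ℂ → ℂ}, DifferentiableOn ℂ F (ball 0 1) →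
    (∀ x ∈ ball (0 : ℂ) 1, ‖F x‖ ≤ C) → (∀ k < K, tc F k = 0) →
    ∀ x ∈ ball (0 : ℂ) 1, ‖F x‖ ≤ C * ‖x‖ ^ K := by
  induction K with
  | zero =>
    intro F hF hC _ x hx
    simpa using hC x hx
  | succ K ih =>
    intro F hF hC h0 x hx
    have hF0 : F 0 = 0 := by
      have h9 := h0 0 (by omega)
      rwa [tc_zero] at h9
    set F1 : ℂ → ℂ := dslope F 0 with hF1
    have hFx : ∀ x, F x = x * F1 x := by
      intro x
      have := sub_smul_dslope F 0 x
      rw [sub_zero, hF0, sub_zero, smul_eq_mul] at this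
      exact this.symm
    have hd1 : DifferentiableOn ℂ F1 (ball 0 1) :=
      (differentiableOn_dslope (ball_mem_nhds 0 one_pos)).mpr hF
    have hC1 : ∀ x ∈ ball (0 : ℂ) 1, ‖F1 x‖ ≤ C := by
      intro x hx
      have h1 := Complex.norm_dslope_le_div_of_mapsTo_ball (f := F) (c := 0) (z := x) (R₁ := 1)
        (R₂ := C) hF ?_ hx
      · rwa [div_one] at h1
      · intro y hy
        rw [hF0, mem_closedBall_zero_iff]
        exact hC y hy
    have h1 : ∀ k < K, tc F1 k = 0 := by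
      intro k hk
      have h2 := tc_id_mul one_pos hd1 k
      rw [← h2]
      have h3 : (fun x => x * F1 x) = F := by funext x; exact (hFx x).symm
      rw [h3]
      exact h0 (k + 1) (by omega)
    have h2 := ih hd1 hC1 h1 x hx
    rw [hFx x, norm_mul, pow_succ]
    calc ‖x‖ * ‖F1 x‖ ≤ ‖x‖ * (C * ‖x‖ ^ K) := by gcongr
      _ = C * (‖x‖ ^ K * ‖x‖) := by ring

theorem parseval_norm {F : ℂ → ℂ} (hF : DifferentiableOn ℂ F (ball 0 1)) {r : ℝ} (hr : 0 < r)
    (hr1 : r < 1) : HasSum (fun k => ‖tc F k‖ ^ 2 * r ^ (2 * k))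
      ((2 * Real.pi)⁻¹ * ∫ θ in (-Real.pi)..Real.pi, ‖F (circleMap 0 r θ)‖ ^ 2) := by
  have h1 := parseval_tc hF hF hr hr1
  have h2 : ∫ θ in (-Real.pi)..Real.pi, (starRingEnd ℂ) (F (circleMap 0 r θ)) * F (circleMap 0 r θ)
      = ((∫ θ in (-Real.pi)..Real.pi, ‖F (circleMap 0 r θ)‖ ^ 2 : ℝ) : ℂ) := by
    rw [← intervalIntegral.integral_ofReal]
    congr 1
    funext θ
    rw [← Complex.normSq_eq_conj_mul_self, Complex.normSq_eq_norm_sq]
  rw [h2] at h1
  have h3 : (fun k => 2 * Real.pi * ((starRingEnd ℂ) (tc F k) * tc F k * (r : ℂ) ^ (2 * k))) =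
      fun k => ((2 * Real.pi * (‖tc F k‖ ^ 2 * r ^ (2 * k)) : ℝ) : ℂ) := by
    funext k
    rw [← Complex.normSq_eq_conj_mul_self, Complex.normSq_eq_norm_sq]
    push_cast
    ring
  rw [h3] at h1
  have h4 := (Complex.hasSum_ofReal.mp h1).mul_left (2 * Real.pi)⁻¹
  convert! h4 using 1
  funext k
  have := Real.pi_pos
  field_simp

theorem mult_bound {R F : ℂ → ℂ} (hR : DifferentiableOn ℂ R (ball 0 1))
    (hF : DifferentiableOn ℂ F (ball 0 1)) {C : ℝ} {K : ℕ}
    (hb : ∀ x ∈ ball (0 : ℂ) 1, ‖R x‖ ≤ C * ‖x‖ ^ K) {r : ℝ} (hr : 0 < r) (hr1 : r < 1) :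
    ∑' k, ‖tc (fun x => R x * F x) k‖ ^ 2 * r ^ (2 * k) ≤
      C ^ 2 * r ^ (2 * K) * ∑' k, ‖tc F k‖ ^ 2 * r ^ (2 * k) := by
  have hpi := Real.pi_pos
  have h1 := parseval_norm (hR.mul hF) hr hr1
  have h2 := parseval_norm hF hr hr1
  have hmem : ∀ θ : ℝ, circleMap 0 r θ ∈ ball (0 : ℂ) 1 := by
    intro θ
    rw [mem_ball_zero_iff, norm_circleMap_zero, abs_of_pos hr]
    exact hr1
  have hcont : ∀ {H : ℂ → ℂ}, DifferentiableOn ℂ H (ball 0 1) →
      Continuous (fun θ : ℝ => ‖H (circleMap 0 r θ)‖ ^ 2) := fun hH =>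
    (hH.continuousOn.comp_continuous (continuous_circleMap 0 r) hmem).norm.pow 2
  have e1 : (fun x => R x * F x) = R * F := rfl
  rw [e1, h1.tsum_eq, h2.tsum_eq]
  have h3 : ∫ θ in (-Real.pi)..Real.pi, ‖(R * F) (circleMap 0 r θ)‖ ^ 2 ≤
      ∫ θ in (-Real.pi)..Real.pi, C ^ 2 * r ^ (2 * K) * ‖F (circleMap 0 r θ)‖ ^ 2 := by
    apply intervalIntegral.integral_mono (by linarith) ((hcont (hR.mul hF)).intervalIntegrable _ _)
      (((hcont hF).const_mul _).intervalIntegrable _ _)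
    intro θ
    simp only [Pi.mul_apply, norm_mul, mul_pow]
    have h4 := hb _ (hmem θ)
    rw [norm_circleMap_zero, abs_of_pos hr] at h4
    have h5 : ‖R (circleMap 0 r θ)‖ ^ 2 ≤ (C * r ^ K) ^ 2 := by gcongr
    have h6 : (C * r ^ K) ^ 2 = C ^ 2 * r ^ (2 * K) := by rw [mul_pow]; ring
    rw [h6] at h5
    gcongr
  rw [intervalIntegral.integral_const_mul] at h3
  calc (2 * Real.pi)⁻¹ * ∫ θ in (-Real.pi)..Real.pi, ‖(R * F) (circleMap 0 r θ)‖ ^ 2
      ≤ (2 * Real.pi)⁻¹ * (C ^ 2 * r ^ (2 * K) * ∫ θ in (-Real.pi)..Real.pi, ‖F (circleMap 0 r θ)‖ ^ 2) := by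
        gcongr
    _ = _ := by ring

/-- the weight -/
theorem lint_weight (k : ℕ) : ∫⁻ r in Ioo (0 : ℝ) 1, ENNReal.ofReal (2 * r ^ (2 * k + 1)) =
    ENNReal.ofReal (((k : ℝ) + 1)⁻¹) := by
  rw [← ofReal_integral_eq_lintegral_ofReal]
  · congr 1
    rw [← integral_Ioc_eq_integral_Ioo, ← intervalIntegral.integral_of_le zero_le_one,
      intervalIntegral.integral_const_mul, integral_pow]
    push_cast
    have : (k : ℝ) + 1 ≠ 0 := by positivity
    field_simp
    ring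
  · have h1 : IntegrableOn (fun r : ℝ => 2 * r ^ (2 * k + 1)) (Icc 0 1) :=
      (Continuous.continuousOn (by fun_prop)).integrableOn_compact isCompact_Icc
    exact h1.mono_set Ioo_subset_Icc_self
  · filter_upwards [ae_restrict_mem measurableSet_Ioo] with r hr
    have := hr.1
    positivity

theorem sum_weight {x : ℕ → ℝ} (hx : ∀ k, 0 ≤ x k)
    (hs : ∀ r : ℝ, 0 < r → r < 1 → Summable fun k => x k * r ^ (2 * k)) :
    ∫⁻ r in Ioo (0 : ℝ) 1, ENNReal.ofReal (2 * r * ∑' k, x k * r ^ (2 * k)) =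
      ∑' k, ENNReal.ofReal (x k * ((k : ℝ) + 1)⁻¹) := by
  have h1 : ∀ k : ℕ, ENNReal.ofReal (x k * ((k : ℝ) + 1)⁻¹) =
      ∫⁻ r in Ioo (0 : ℝ) 1, ENNReal.ofReal (x k * (2 * r ^ (2 * k + 1))) := by
    intro k
    simp only [ENNReal.ofReal_mul (hx k)]
    rw [lintegral_const_mul _ (by fun_prop), lint_weight]
  simp only [h1]
  rw [← lintegral_tsum (fun k => by fun_prop)]
  refine setLIntegral_congr_fun measurableSet_Ioo fun r hr => ?_
  have h2 : ∀ k : ℕ, x k * (2 * r ^ (2 * k + 1)) = 2 * r * (x k * r ^ (2 * k)) := by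
    intro k
    rw [pow_succ]
    ring
  simp only [h2]
  rw [← tsum_mul_left, ENNReal.ofReal_tsum_of_nonneg]
  · intro k
    have := hx k
    have := hr.1
    positivity
  · exact (hs r hr.1 hr.2).mul_left _

/-- Comparison of weighted sums. -/
theorem weighted_le {x y : ℕ → ℝ} (hx : ∀ k, 0 ≤ x k) (hy : ∀ k, 0 ≤ y k) {A : ℝ} (hA : 0 ≤ A)
    {K : ℕ} (hxs : ∀ r : ℝ, 0 < r → r < 1 → Summable fun k => x k * r ^ (2 * k))
    (hys : ∀ r : ℝ, 0 < r → r < 1 → Summable fun k => y k * r ^ (2 * k))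
    (h : ∀ r : ℝ, 0 < r → r < 1 →
      ∑' k, x k * r ^ (2 * k) ≤ A * r ^ (2 * K) * ∑' k, y k * r ^ (2 * k))
    (hY : Summable fun k : ℕ => y k * ((k : ℝ) + 1)⁻¹) :
    Summable (fun k : ℕ => x k * ((k : ℝ) + 1)⁻¹) ∧
      ∑' k : ℕ, x k * ((k : ℝ) + 1)⁻¹ ≤ A * ∑' k : ℕ, y k * ((k : ℝ) + K + 1)⁻¹ := by
  -- the shifted sequence
  set z : ℕ → ℝ := fun k => if K ≤ k then A * y (k - K) else 0 with hz
  have hz0 : ∀ k, 0 ≤ z k := by
    intro k
    simp only [hz]
    split_ifs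
    · exact mul_nonneg hA (hy _)
    · exact le_rfl
  have hzr : ∀ r : ℝ, 0 < r → r < 1 → HasSum (fun k => z k * r ^ (2 * k))
      (A * r ^ (2 * K) * ∑' k, y k * r ^ (2 * k)) := by
    intro r hr hr1
    rw [← hasSum_nat_add_iff' K, Finset.sum_eq_zero, sub_zero]
    · have h1 := (hys r hr hr1).hasSum.mul_left (A * r ^ (2 * K))
      convert! h1 using 1
      funext k
      simp only [hz]
      rw [if_pos (by omega), Nat.add_sub_cancel, mul_add, pow_add]
      ring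
    · intro k hk
      simp only [hz]
      rw [if_neg (by have := Finset.mem_range.mp hk; omega), zero_mul]
  have h1 : ∑' k, ENNReal.ofReal (x k * ((k : ℝ) + 1)⁻¹) ≤
      ∑' k, ENNReal.ofReal (z k * ((k : ℝ) + 1)⁻¹) := by
    rw [← sum_weight hx hxs, ← sum_weight hz0 (fun r hr hr1 => (hzr r hr hr1).summable)]
    apply setLIntegral_mono' measurableSet_Ioo
    intro r hr
    apply ENNReal.ofReal_le_ofReal
    rw [(hzr r hr.1 hr.2).tsum_eq]
    have := h r hr.1 hr.2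
    have := hr.1
    gcongr
  have hYK : Summable fun k : ℕ => y k * ((k : ℝ) + K + 1)⁻¹ := by
    refine Summable.of_nonneg_of_le (fun k => ?_) (fun k => ?_) hY
    · have := hy k
      positivity
    · have := hy k
      gcongr
      linarith [(Nat.cast_nonneg K : (0:ℝ) ≤ K)]
  have hzs : HasSum (fun k : ℕ => z k * ((k : ℝ) + 1)⁻¹) (A * ∑' k : ℕ, y k * ((k : ℝ) + K + 1)⁻¹) := by
    rw [← hasSum_nat_add_iff' K, Finset.sum_eq_zero, sub_zero]
    · have h2 := hYK.hasSum.mul_left A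
      convert! h2 using 1
      funext k
      simp only [hz]
      rw [if_pos (by omega), Nat.add_sub_cancel]
      push_cast
      ring
    · intro k hk
      simp only [hz]
      rw [if_neg (by have := Finset.mem_range.mp hk; omega), zero_mul]
  have h2 : ∑' k, ENNReal.ofReal (z k * ((k : ℝ) + 1)⁻¹) =
      ENNReal.ofReal (A * ∑' k : ℕ, y k * ((k : ℝ) + K + 1)⁻¹) := by
    rw [← hzs.tsum_eq, ENNReal.ofReal_tsum_of_nonneg _ hzs.summable]
    intro k
    have := hz0 k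
    positivity
  rw [h2] at h1
  have hx1 : ∀ k : ℕ, 0 ≤ x k * ((k : ℝ) + 1)⁻¹ := fun k => by
    have := hx k
    positivity
  have hS : Summable (fun k : ℕ => x k * ((k : ℝ) + 1)⁻¹) := by
    have h3 : ∑' k, ENNReal.ofReal (x k * ((k : ℝ) + 1)⁻¹) ≠ ⊤ :=
      ne_top_of_le_ne_top ENNReal.ofReal_ne_top h1
    have h4 := ENNReal.summable_toReal h3
    refine h4.congr fun k => ?_
    rw [ENNReal.toReal_ofReal (hx1 k)]
  refine ⟨hS, ?_⟩
  rw [← ENNReal.ofReal_tsum_of_nonneg hx1 hS] at h1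
  refine (ENNReal.ofReal_le_ofReal_iff ?_).mp h1
  apply mul_nonneg hA
  apply tsum_nonneg
  intro k
  have := hy k
  positivity

/-- Dominated convergence for the shifted weights. -/
theorem tendsto_weights {y : ℕ → ℝ} (hy : ∀ k, 0 ≤ y k)
    (hY : Summable fun k : ℕ => y k * ((k : ℝ) + 1)⁻¹) {K : ℕ → ℕ} (hK : Tendsto K atTop atTop) :
    Tendsto (fun n => ∑' k : ℕ, y k * ((k : ℝ) + K n + 1)⁻¹) atTop (𝓝 0) := by
  have h0 : (0 : ℝ) = ∑' _ : ℕ, (0 : ℝ) := tsum_zero.symm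
  rw [h0]
  refine tendsto_tsum_of_dominated_convergence hY (fun k => ?_) (Eventually.of_forall fun n k => ?_)
  · have h1 : Tendsto (fun n => (k : ℝ) + K n + 1) atTop atTop :=
      tendsto_atTop_add_const_right _ _
        (tendsto_atTop_add_const_left _ _ (tendsto_natCast_atTop_atTop.comp hK))
    have h2 := (tendsto_inv_atTop_zero.comp h1).const_mul (y k)
    rwa [mul_zero] at h2
  · have := hy k
    rw [Real.norm_of_nonneg (by positivity)]
    gcongr
    linarith [(Nat.cast_nonneg (K n) : (0:ℝ) ≤ K n)]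

end Pool.Agent.U608.ML
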