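import Mathlib
import Pool.Agent.U608.ML.L3

/-!
The Hilbert transform law for the Laurent coefficients of `G ∘ ψ`.
-/

set_option autoImplicit false

open Complex Topology Filter Metric MeasureTheory Set Polynomial

namespace Pool.Agent.U608.ML

open Pool.Agent.H713R2 Pool.Agent.H713R2.AR Pool.Agent.H712R2 N62a1eb23

variable {d : ℕ} {β : ℂ → ℂ}

/-- the coefficients of `x H' - p H` for `H = x ^ p G(ψ(1/x))` -/
noncomputable def ww (β : ℂ → ℂ) (G : ℂ[X]) (p k : ℕ) : ℂ := tc (WW (Hm β G p) p) k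

/-- The area formula for `Q` with `Q' = P_(n+1) G'`. -/
theorem area_n (hd : 2 ≤ d) (hβ : IsBeta d β) (n : ℕ) {G : ℂ[X]} {p : ℕ} (hp : 1 ≤ p)
    (hG : G.natDegree ≤ p) :
    HasSum (fun k : ℕ => ‖ww β G p k + ee d β n (WW (Hm β G p) p) k‖ ^ 2 /
        (((d ^ n + p : ℕ) : ℝ) - k))
      (1 / Real.pi * ∫ z in multibrotSet d, ‖(derivative G).eval z‖ ^ 2 * ‖P d (n + 1) z‖ ^ 2) := by
  obtain ⟨Q, hQ, hQd⟩ := exists_Q hd n hp hG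
  have h1 := area_circle hβ (Q := Q) (D := d ^ n + p) (Hm_diff hβ.diff Q (d ^ n + p))
    (fun x _ hx0 => Hm_eq β hQd hx0)
  have h2 : ∫ z in multibrotSet d, ‖(derivative Q).eval z‖ ^ 2 =
      ∫ z in multibrotSet d, ‖(derivative G).eval z‖ ^ 2 * ‖P d (n + 1) z‖ ^ 2 := by
    congr 1
    funext z
    rw [hQ, eval_mul, eval_PP, norm_mul]
    ring
  rw [h2] at h1
  convert! h1 using 1
  funext k
  have h3 := tc_Q hd hβ n hG hQ hQd k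
  unfold ww
  rw [← h3, norm_mul]
  have h4 : ‖(k : ℂ) - ((d ^ n + p : ℕ) : ℂ)‖ = |((d ^ n + p : ℕ) : ℝ) - k| := by
    have : (k : ℂ) - ((d ^ n + p : ℕ) : ℂ) = (((k : ℝ) - ((d ^ n + p : ℕ) : ℝ) : ℝ) : ℂ) := by
      push_cast; ring
    rw [this, Complex.norm_real, Real.norm_eq_abs, abs_sub_comm]
  rw [h4, mul_pow, sq_abs]
  by_cases h5 : ((d ^ n + p : ℕ) : ℝ) - k = 0
  · rw [h5]; simp
  · field_simp

/-- The area formula for `G`. -/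
theorem summable_ww (hβ : IsBeta d β) {G : ℂ[X]} {p : ℕ} (hG : G.natDegree ≤ p) :
    Summable (fun k : ℕ => ‖ww β G p k‖ ^ 2 * ((k : ℝ) + 1)⁻¹) := by
  have h1 := (area_circle hβ (Q := G) (D := p) (Hm_diff hβ.diff G p)
    (fun x _ hx0 => Hm_eq β hG hx0)).summable
  have h2 : Summable (fun k : ℕ => |((p : ℝ) - k) * ‖tc (Hm β G p) k‖ ^ 2|) := h1.abs
  refine Summable.of_nonneg_of_le (fun k => by positivity) (fun k => ?_) (h2.mul_left ((p : ℝ) + 1))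
  unfold ww
  rw [tc_WW (Hm_diff hβ.diff G p), norm_mul, mul_pow, abs_mul, abs_of_nonneg (by positivity : (0:ℝ) ≤ ‖tc (Hm β G p) k‖ ^ 2)]
  have h4 : ‖(k : ℂ) - (p : ℂ)‖ = |(p : ℝ) - k| := by
    have : (k : ℂ) - (p : ℂ) = (((k : ℝ) - (p : ℝ) : ℝ) : ℂ) := by
      push_cast; ring
    rw [this, Complex.norm_real, Real.norm_eq_abs, abs_sub_comm]
  rw [h4]
  have h5 : |(p : ℝ) - k| ≤ ((p : ℝ) + 1) * ((k : ℝ) + 1) := by
    have hp : (0 : ℝ) ≤ p := p.cast_nonneg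
    have hk : (0 : ℝ) ≤ k := k.cast_nonneg
    rw [abs_le]
    constructor <;> nlinarith
  have hk1 : (0 : ℝ) < (k : ℝ) + 1 := by positivity
  have h6 : 0 ≤ |(p : ℝ) - k| := abs_nonneg _
  calc |(p : ℝ) - k| ^ 2 * ‖tc (Hm β G p) k‖ ^ 2 * ((k : ℝ) + 1)⁻¹
      = |(p : ℝ) - k| * ‖tc (Hm β G p) k‖ ^ 2 * (|(p : ℝ) - k| * ((k : ℝ) + 1)⁻¹) := by ring
    _ ≤ |(p : ℝ) - k| * ‖tc (Hm β G p) k‖ ^ 2 * ((p : ℝ) + 1) := by
        gcongr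
        rw [← div_eq_mul_inv, div_le_iff₀ hk1]
        exact h5
    _ = _ := by ring

theorem summable_r (F : ℂ → ℂ) (hF : DifferentiableOn ℂ F (ball 0 1)) (r : ℝ) (hr : 0 < r)
    (hr1 : r < 1) : Summable fun k => ‖tc F k‖ ^ 2 * r ^ (2 * k) :=
  (parseval_norm hF hr hr1).summable

/-- The error terms tend to zero in the weighted norm. -/
theorem ee_small (hd : 2 ≤ d) (hβ : IsBeta d β) {F : ℂ → ℂ} (hF : DifferentiableOn ℂ F (ball 0 1))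
    (hs : Summable fun k : ℕ => ‖tc F k‖ ^ 2 * ((k : ℝ) + 1)⁻¹) :
    (∀ n, Summable (fun k : ℕ => ‖ee d β n F k‖ ^ 2 * ((k : ℝ) + 1)⁻¹)) ∧
    Tendsto (fun n => ∑' k : ℕ, ‖ee d β n F k‖ ^ 2 * ((k : ℝ) + 1)⁻¹) atTop (𝓝 0) := by
  have hBd : ∀ n, DifferentiableOn ℂ (fun x => BB d β n x - 1) (ball 0 1) := fun n =>
    (BB_diff hβ.diff n).sub (differentiableOn_const _)
  have hb : ∀ n, ∀ x ∈ ball (0 : ℂ) 1, ‖BB d β n x - 1‖ ≤ 3 * ‖x‖ ^ (d ^ (n + 1) - 1) := by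
    intro n
    refine schwarz_order _ (hBd n) (fun x hx => ?_) (fun k hk => ?_)
    · have h1 := BB_le_two hd hβ n hx
      have h2 := norm_sub_le (BB d β n x) 1
      rw [norm_one] at h2
      linarith
    · have h1 := ee_zero (F := fun _ => 1) hβ n (differentiableOn_const _) hk
      unfold ee at h1
      simpa using h1
  have hw := fun n => weighted_le (x := fun k => ‖ee d β n F k‖ ^ 2) (y := fun k => ‖tc F k‖ ^ 2)
    (A := 3 ^ 2) (K := d ^ (n + 1) - 1) (fun k => by positivity) (fun k => by positivity)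
    (by norm_num) (summable_r _ ((hBd n).mul hF)) (summable_r _ hF)
    (fun r hr hr1 => mult_bound (hBd n) hF (hb n) hr hr1) hs
  refine ⟨fun n => (hw n).1, ?_⟩
  have hK : Tendsto (fun n => d ^ (n + 1) - 1) atTop atTop := by
    have h1 : Tendsto (fun n => d ^ (n + 1)) atTop atTop :=
      (tendsto_pow_atTop_atTop_of_one_lt (by omega)).comp (tendsto_add_atTop_nat 1)
    exact (tendsto_sub_atTop_nat 1).comp h1
  have h2 := (tendsto_weights (y := fun k => ‖tc F k‖ ^ 2) (fun k => by positivity) hs hK).const_mul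
    ((3:ℝ) ^ 2)
  rw [mul_zero] at h2
  refine tendsto_of_tendsto_of_tendsto_of_le_of_le tendsto_const_nhds h2 (fun n => ?_) (fun n => (hw n).2)
  exact tsum_nonneg fun k => by positivity

/-- Comparison of the sums with and without the error terms. -/
theorem compare {w e : ℕ → ℂ} {m K : ℕ} (hK : ∀ k < K, e k = 0)
    (hmK : ∀ k, K ≤ k → (k : ℝ) + 1 ≤ 4 * ((k : ℝ) - m))
    (hw : Summable fun k : ℕ => ‖w k‖ ^ 2 * ((k : ℝ) + 1)⁻¹)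
    (he : Summable fun k : ℕ => ‖e k‖ ^ 2 * ((k : ℝ) + 1)⁻¹) {J : ℝ}
    (hJ : HasSum (fun k : ℕ => ‖w k + e k‖ ^ 2 / ((m : ℝ) - k)) J) :
    Summable (fun k : ℕ => ‖w k‖ ^ 2 / ((m : ℝ) - k)) ∧
    |∑' k : ℕ, ‖w k‖ ^ 2 / ((m : ℝ) - k) - J| ≤
      4 * (∑' k : ℕ, ‖e k‖ ^ 2 * ((k : ℝ) + 1)⁻¹ +
        2 * (√(∑' k : ℕ, ‖w k‖ ^ 2 * ((k : ℝ) + 1)⁻¹) * √(∑' k : ℕ, ‖e k‖ ^ 2 * ((k : ℝ) + 1)⁻¹))) := by
  set W : ℝ := ∑' k : ℕ, ‖w k‖ ^ 2 * ((k : ℝ) + 1)⁻¹ with hW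
  set E : ℝ := ∑' k : ℕ, ‖e k‖ ^ 2 * ((k : ℝ) + 1)⁻¹ with hE
  have hW0 : 0 ≤ W := tsum_nonneg fun k => by positivity
  have hE0 : 0 ≤ E := tsum_nonneg fun k => by positivity
  -- Cauchy-Schwarz
  have hcs : ∀ s : Finset ℕ, ∑ k ∈ s, ‖w k‖ * ‖e k‖ * ((k : ℝ) + 1)⁻¹ ≤ √W * √E := by
    intro s
    have h1 := Real.sum_mul_le_sqrt_mul_sqrt s (fun k => ‖w k‖ * √(((k : ℝ) + 1)⁻¹))
      (fun k => ‖e k‖ * √(((k : ℝ) + 1)⁻¹))
    have h2 : ∀ k : ℕ, √(((k : ℝ) + 1)⁻¹) * √(((k : ℝ) + 1)⁻¹) = ((k : ℝ) + 1)⁻¹ := fun k =>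
      Real.mul_self_sqrt (by positivity)
    have h3 : ∑ k ∈ s, ‖w k‖ * ‖e k‖ * ((k : ℝ) + 1)⁻¹ =
        ∑ k ∈ s, ‖w k‖ * √(((k : ℝ) + 1)⁻¹) * (‖e k‖ * √(((k : ℝ) + 1)⁻¹)) := by
      refine Finset.sum_congr rfl fun k _ => ?_
      linear_combination (-(‖w k‖ * ‖e k‖)) * h2 k
    rw [h3]
    refine h1.trans ?_
    have h4 : ∑ k ∈ s, (‖w k‖ * √(((k : ℝ) + 1)⁻¹)) ^ 2 ≤ W := by
      have h5 : ∑ k ∈ s, (‖w k‖ * √(((k : ℝ) + 1)⁻¹)) ^ 2 = ∑ k ∈ s, ‖w k‖ ^ 2 * ((k : ℝ) + 1)⁻¹ := by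
        refine Finset.sum_congr rfl fun k _ => ?_
        rw [mul_pow, sq √_, h2]
      rw [h5]
      exact hw.sum_le_tsum s fun k _ => by positivity
    have h6 : ∑ k ∈ s, (‖e k‖ * √(((k : ℝ) + 1)⁻¹)) ^ 2 ≤ E := by
      have h5 : ∑ k ∈ s, (‖e k‖ * √(((k : ℝ) + 1)⁻¹)) ^ 2 = ∑ k ∈ s, ‖e k‖ ^ 2 * ((k : ℝ) + 1)⁻¹ := by
        refine Finset.sum_congr rfl fun k _ => ?_
        rw [mul_pow, sq √_, h2]
      rw [h5]
      exact he.sum_le_tsum s fun k _ => by positivity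
    gcongr
  have hcross : Summable fun k : ℕ => ‖w k‖ * ‖e k‖ * ((k : ℝ) + 1)⁻¹ :=
    summable_of_sum_le (fun k => by positivity) hcs
  have hcross_le : ∑' k : ℕ, ‖w k‖ * ‖e k‖ * ((k : ℝ) + 1)⁻¹ ≤ √W * √E :=
    hcross.tsum_le_of_sum_le hcs
  -- the difference
  have hdiff : ∀ k : ℕ, |‖w k‖ ^ 2 / ((m : ℝ) - k) - ‖w k + e k‖ ^ 2 / ((m : ℝ) - k)| ≤
      4 * (‖e k‖ ^ 2 * ((k : ℝ) + 1)⁻¹ + 2 * (‖w k‖ * ‖e k‖ * ((k : ℝ) + 1)⁻¹)) := by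
    intro k
    by_cases hk : k < K
    · rw [hK k hk]
      simp
    · push Not at hk
      have h1 := hmK k hk
      have hk1 : (0 : ℝ) < (k : ℝ) + 1 := by positivity
      have h2 : (0 : ℝ) < (k : ℝ) - m := by linarith
      have h3 : |‖w k‖ ^ 2 - ‖w k + e k‖ ^ 2| ≤ ‖e k‖ ^ 2 + 2 * (‖w k‖ * ‖e k‖) := by
        have h4 := norm_add_le (w k) (e k)
        have h5 : ‖w k‖ - ‖e k‖ ≤ ‖w k + e k‖ := by
          have := norm_sub_le (w k + e k) (e k)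
          rw [add_sub_cancel_right] at this
          linarith
        have h6 := norm_nonneg (w k)
        have h7 := norm_nonneg (e k)
        have h8 := norm_nonneg (w k + e k)
        rw [abs_le]
        constructor
        · nlinarith
        · by_cases h9 : ‖e k‖ ≤ ‖w k‖
          · nlinarith
          · push Not at h9
            nlinarith
      rw [← sub_div, abs_div]
      have h4 : |(m : ℝ) - k| = (k : ℝ) - m := by rw [abs_sub_comm]; exact abs_of_pos h2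
      rw [h4]
      have h5 : ((k : ℝ) - m)⁻¹ ≤ 4 * ((k : ℝ) + 1)⁻¹ := by
        rw [inv_eq_one_div, div_le_iff₀ h2, mul_assoc, mul_comm _ ((k : ℝ) - m), ← mul_assoc,
          ← div_eq_mul_inv, le_div_iff₀ hk1]
        linarith
      have h6 : 0 ≤ ((k : ℝ) - m)⁻¹ := by positivity
      calc |‖w k‖ ^ 2 - ‖w k + e k‖ ^ 2| / ((k : ℝ) - m)
          = |‖w k‖ ^ 2 - ‖w k + e k‖ ^ 2| * ((k : ℝ) - m)⁻¹ := by rw [div_eq_mul_inv]
        _ ≤ (‖e k‖ ^ 2 + 2 * (‖w k‖ * ‖e k‖)) * (4 * ((k : ℝ) + 1)⁻¹) := by gcongr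
        _ = _ := by ring
  have hsum : Summable fun k : ℕ =>
      4 * (‖e k‖ ^ 2 * ((k : ℝ) + 1)⁻¹ + 2 * (‖w k‖ * ‖e k‖ * ((k : ℝ) + 1)⁻¹)) :=
    (he.add (hcross.mul_left 2)).mul_left 4
  have hds : Summable fun k : ℕ => ‖w k‖ ^ 2 / ((m : ℝ) - k) - ‖w k + e k‖ ^ 2 / ((m : ℝ) - k) :=
    Summable.of_abs (hsum.of_nonneg_of_le (fun k => abs_nonneg _) hdiff)
  have hws : Summable (fun k : ℕ => ‖w k‖ ^ 2 / ((m : ℝ) - k)) := by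
    have := hds.add hJ.summable
    refine this.congr fun k => ?_
    ring
  refine ⟨hws, ?_⟩
  rw [← hJ.tsum_eq, ← hws.tsum_sub hJ.summable]
  have h1 : |∑' k : ℕ, (‖w k‖ ^ 2 / ((m : ℝ) - k) - ‖w k + e k‖ ^ 2 / ((m : ℝ) - k))| ≤
      ∑' k : ℕ, 4 * (‖e k‖ ^ 2 * ((k : ℝ) + 1)⁻¹ + 2 * (‖w k‖ * ‖e k‖ * ((k : ℝ) + 1)⁻¹)) :=
    tsum_of_norm_bounded (f := fun k : ℕ =>
      ‖w k‖ ^ 2 / ((m : ℝ) - k) - ‖w k + e k‖ ^ 2 / ((m : ℝ) - k)) hsum.hasSum hdiff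
  refine h1.trans ?_
  rw [tsum_mul_left, he.tsum_add (hcross.mul_left 2), tsum_mul_left]
  gcongr

/-- **The law, in terms of the coefficients `ww`.** -/
theorem law_ww (hd : 2 ≤ d) (hβ : IsBeta d β) {G : ℂ[X]} {p : ℕ} (hp : 1 ≤ p)
    (hG : G.natDegree ≤ p) :
    (∀ᶠ n : ℕ in atTop, Summable (fun k : ℕ => ‖ww β G p k‖ ^ 2 / (((d ^ n + p : ℕ) : ℝ) - k))) ∧
    Tendsto (fun n : ℕ => ∑' k : ℕ, ‖ww β G p k‖ ^ 2 / (((d ^ n + p : ℕ) : ℝ) - k) -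
      1 / Real.pi * ∫ z in multibrotSet d, ‖(derivative G).eval z‖ ^ 2 * ‖P d (n + 1) z‖ ^ 2)
      atTop (𝓝 0) := by
  have hF : DifferentiableOn ℂ (WW (Hm β G p) p) (ball 0 1) := WW_diff (Hm_diff hβ.diff _ _) _
  have hw := summable_ww hβ hG
  obtain ⟨he1, he2⟩ := ee_small hd hβ hF hw
  have hbig : ∀ᶠ n : ℕ in atTop, 2 * p + 2 ≤ d ^ n :=
    (tendsto_pow_atTop_atTop_of_one_lt (by omega : 1 < d)).eventually_ge_atTop _
  have hcmp : ∀ᶠ n : ℕ in atTop,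
      Summable (fun k : ℕ => ‖ww β G p k‖ ^ 2 / (((d ^ n + p : ℕ) : ℝ) - k)) ∧
      |∑' k : ℕ, ‖ww β G p k‖ ^ 2 / (((d ^ n + p : ℕ) : ℝ) - k) -
        1 / Real.pi * ∫ z in multibrotSet d, ‖(derivative G).eval z‖ ^ 2 * ‖P d (n + 1) z‖ ^ 2| ≤
      4 * (∑' k : ℕ, ‖ee d β n (WW (Hm β G p) p) k‖ ^ 2 * ((k : ℝ) + 1)⁻¹ +
        2 * (√(∑' k : ℕ, ‖ww β G p k‖ ^ 2 * ((k : ℝ) + 1)⁻¹) *
          √(∑' k : ℕ, ‖ee d β n (WW (Hm β G p) p) k‖ ^ 2 * ((k : ℝ) + 1)⁻¹))) := by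
    filter_upwards [hbig] with n hn
    exact compare (w := ww β G p) (e := ee d β n (WW (Hm β G p) p)) (m := d ^ n + p)
      (K := d ^ (n + 1) - 1) (fun k hk => ee_zero hβ n hF hk) (fun k hk => by
        have h1 : 2 * d ^ n ≤ d ^ (n + 1) := by
          rw [pow_succ, mul_comm]
          exact Nat.mul_le_mul_left _ hd
        have h2 : 4 * (d ^ n + p) + k + 1 ≤ 4 * k := by omega
        have h3 : ((4 * (d ^ n + p) + k + 1 : ℕ) : ℝ) ≤ ((4 * k : ℕ) : ℝ) := by exact_mod_cast h2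
        push_cast at h3 ⊢
        linarith) hw (he1 n) (area_n hd hβ n hp hG)
  refine ⟨hcmp.mono fun n h => h.1, ?_⟩
  have hlim : Tendsto (fun n : ℕ => 4 * (∑' k : ℕ, ‖ee d β n (WW (Hm β G p) p) k‖ ^ 2 * ((k : ℝ) + 1)⁻¹ +
        2 * (√(∑' k : ℕ, ‖ww β G p k‖ ^ 2 * ((k : ℝ) + 1)⁻¹) *
          √(∑' k : ℕ, ‖ee d β n (WW (Hm β G p) p) k‖ ^ 2 * ((k : ℝ) + 1)⁻¹)))) atTop (𝓝 0) := by
    have h1 := he2.sqrt
    rw [Real.sqrt_zero] at h1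
    have h2 := (he2.add ((h1.const_mul √(∑' k : ℕ, ‖ww β G p k‖ ^ 2 * ((k : ℝ) + 1)⁻¹)).const_mul 2)).const_mul 4
    simpa using h2
  rw [tendsto_zero_iff_abs_tendsto_zero]
  refine tendsto_of_tendsto_of_tendsto_of_le_of_le' tendsto_const_nhds hlim
    (Eventually.of_forall fun n => abs_nonneg _) ?_
  filter_upwards [hcmp] with n h
  exact h.2

end Pool.Agent.U608.ML
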