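import Mathlib
import Pool.Agent.U608.ML.L4

/-!
The Hilbert transform law for the exterior maps of Multibrot sets.
-/

set_option autoImplicit false

open Complex Topology Filter Metric MeasureTheory Set Polynomial

namespace Pool.Agent.U608.ML

open Pool.Agent.H713R2 Pool.Agent.H713R2.AR Pool.Agent.H712R2 N62a1eb23

variable {d : ℕ} {β : ℂ → ℂ}

theorem ww_gamma (hβ : IsBeta d β) {ψ : ℂ → ℂ}
    (hψ : IsExteriorMap (multibrotSet d) ψ) {G H : ℂ[X]} {γ : ℕ → ℂ}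
    (h : ∀ z : ℂ, 1 < ‖z‖ → HasSum (fun m : ℕ => γ m / z ^ m) (G.eval (ψ z) - H.eval z))
    {p : ℕ} (hG : G.natDegree ≤ p) (hH : H.natDegree ≤ p) (l : ℕ) :
    ww β G p (l + p) = (l : ℂ) * γ l := by
  unfold ww
  rw [tc_WW (Hm_diff hβ.diff G p)]
  rcases Nat.eq_zero_or_pos l with hl | hl
  · subst hl
    simp
  · rw [add_comm l p, coeff_gamma hβ hψ h hG hH hl]
    push_cast
    ring

/-- **The Hilbert transform law** for the Laurent coefficients of `G ∘ ψ`. -/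
theorem law (hd : 2 ≤ d) {ψ : ℂ → ℂ} (hψ : IsExteriorMap (multibrotSet d) ψ) {G H : ℂ[X]}
    {γ : ℕ → ℂ}
    (h : ∀ z : ℂ, 1 < ‖z‖ → HasSum (fun m : ℕ => γ m / z ^ m) (G.eval (ψ z) - H.eval z)) :
    (∀ n : ℕ, Summable fun l : ℕ => (l : ℝ) ^ 2 * ‖γ l‖ ^ 2 / ((d : ℝ) ^ n - l)) ∧
    Tendsto (fun n : ℕ => ∑' l : ℕ, (l : ℝ) ^ 2 * ‖γ l‖ ^ 2 / ((d : ℝ) ^ n - l) -
      1 / Real.pi * ∫ z in multibrotSet d, ‖(derivative G).eval z‖ ^ 2 * ‖P d (n + 1) z‖ ^ 2)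
      atTop (𝓝 0) := by
  obtain ⟨β, hβ⟩ := exists_beta (d := d) hd
  obtain ⟨p, hp⟩ : ∃ p, p = G.natDegree + H.natDegree + 1 := ⟨_, rfl⟩
  have hG : G.natDegree ≤ p := by omega
  have hH : H.natDegree ≤ p := by omega
  have hp1 : 1 ≤ p := by omega
  obtain ⟨h1, h2⟩ := law_ww hd hβ hp1 hG
  have hterm : ∀ (n l : ℕ), ‖ww β G p (l + p)‖ ^ 2 / (((d ^ n + p : ℕ) : ℝ) - ((l + p : ℕ) : ℝ)) =
      (l : ℝ) ^ 2 * ‖γ l‖ ^ 2 / ((d : ℝ) ^ n - l) := by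
    intro n l
    rw [ww_gamma hβ hψ h hG hH, norm_mul, Complex.norm_natCast, mul_pow]
    congr 1
    push_cast
    ring
  have hsum : ∀ n : ℕ, Summable fun l : ℕ => (l : ℝ) ^ 2 * ‖γ l‖ ^ 2 / ((d : ℝ) ^ n - l) := by
    intro n
    have h3 := (summable_nat_add_iff p).mpr (summable_ww hβ hG)
    refine Summable.of_abs (Summable.of_nonneg_of_le (fun l => abs_nonneg _) (fun l => ?_)
      (h3.mul_left ((p : ℝ) + 2 + (d : ℝ) ^ n)))
    rw [ww_gamma hβ hψ h hG hH, norm_mul, Complex.norm_natCast, mul_pow]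
    by_cases hl : (d : ℝ) ^ n - l = 0
    · rw [hl, div_zero, abs_zero]
      positivity
    · have hl1 : (1 : ℝ) ≤ |(d : ℝ) ^ n - l| := by
        have h4 : ((d : ℝ) ^ n - l) = (((d ^ n : ℕ) : ℤ) - (l : ℤ) : ℤ) := by push_cast; ring
        rw [h4, ← Int.cast_abs]
        have h5 : ((d ^ n : ℕ) : ℤ) - (l : ℤ) ≠ 0 := by
          intro h6
          apply hl
          rw [h4, h6]
          simp
        exact_mod_cast Int.one_le_abs h5
      have hl0 : (0 : ℝ) < |(d : ℝ) ^ n - l| := by linarith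
      have h4 : (l : ℝ) ≤ (d : ℝ) ^ n + |(d : ℝ) ^ n - l| := by
        have := neg_abs_le ((d : ℝ) ^ n - l)
        linarith
      have hp0 : (0 : ℝ) ≤ p := p.cast_nonneg
      have hd0 : (0 : ℝ) ≤ (d : ℝ) ^ n := by positivity
      rw [abs_div, abs_of_nonneg (by positivity : (0 : ℝ) ≤ (l : ℝ) ^ 2 * ‖γ l‖ ^ 2)]
      have hk1 : (0 : ℝ) < ((l + p : ℕ) : ℝ) + 1 := by positivity
      have h5 : |(d : ℝ) ^ n - l|⁻¹ ≤ ((p : ℝ) + 2 + (d : ℝ) ^ n) * (((l + p : ℕ) : ℝ) + 1)⁻¹ := by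
        rw [inv_eq_one_div, div_le_iff₀ hl0, mul_assoc, mul_comm _ (|(d : ℝ) ^ n - l|), ← mul_assoc,
          ← div_eq_mul_inv, le_div_iff₀ hk1]
        push_cast
        nlinarith
      calc (l : ℝ) ^ 2 * ‖γ l‖ ^ 2 / |(d : ℝ) ^ n - l|
          = (l : ℝ) ^ 2 * ‖γ l‖ ^ 2 * |(d : ℝ) ^ n - l|⁻¹ := by rw [div_eq_mul_inv]
        _ ≤ (l : ℝ) ^ 2 * ‖γ l‖ ^ 2 * (((p : ℝ) + 2 + (d : ℝ) ^ n) * (((l + p : ℕ) : ℝ) + 1)⁻¹) := by
            gcongr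
        _ = _ := by ring
  refine ⟨hsum, ?_⟩
  -- the low part
  have hlow : Tendsto (fun n : ℕ => ∑ k ∈ Finset.range p,
      ‖ww β G p k‖ ^ 2 / (((d ^ n + p : ℕ) : ℝ) - k)) atTop (𝓝 0) := by
    have h3 : Tendsto (fun n : ℕ => ∑ k ∈ Finset.range p,
      ‖ww β G p k‖ ^ 2 / (((d ^ n + p : ℕ) : ℝ) - k)) atTop (𝓝 (∑ k ∈ Finset.range p, 0)) := by
      refine tendsto_finsetSum _ fun k _ => ?_
      have h4 : Tendsto (fun n : ℕ => ((d ^ n + p : ℕ) : ℝ) - k) atTop atTop := by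
        have h5 : Tendsto (fun n : ℕ => (d : ℝ) ^ n + ((p : ℝ) - k)) atTop atTop :=
          tendsto_atTop_add_const_right _ _
            (tendsto_pow_atTop_atTop_of_one_lt (by exact_mod_cast (by omega : 1 < d)))
        refine h5.congr fun n => ?_
        push_cast
        ring
      exact h4.const_div_atTop _
    simpa using h3
  have h3 := h2.sub hlow
  rw [sub_zero] at h3
  refine h3.congr' ?_
  filter_upwards [h1] with n hn
  have h4 := hn.sum_add_tsum_nat_add p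
  have h5 : ∑' l : ℕ, ‖ww β G p (l + p)‖ ^ 2 / (((d ^ n + p : ℕ) : ℝ) - ((l + p : ℕ) : ℝ)) =
      ∑' l : ℕ, (l : ℝ) ^ 2 * ‖γ l‖ ^ 2 / ((d : ℝ) ^ n - l) := by
    congr 1
    funext l
    exact hterm n l
  rw [h5] at h4
  rw [← h4]
  ring

end Pool.Agent.U608.ML
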