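import Mathlib
import Pool.Agent.U608.ML.L5
import Pool.Agent.H712R2.MultiCoarse
import Pool.Agent.H713R2.AR.T1
import Pool.Agent.N673.QC.Comp

/-!
Time averages of the critical orbit over the hyperbolic and over the non-hyperbolic parameters.
-/

set_option autoImplicit false

open Complex Topology Filter Metric MeasureTheory Set

namespace Pool.Agent.U608.ML

open Pool.Agent.H713R2 Pool.Agent.H712R2 N62a1eb23

/-! ### Cesàro means of periodic sequences -/

theorem cesaro_zero_of_bdd {S : ℕ → ℝ} {C : ℝ} (h : ∀ N, |S N| ≤ C) :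
    Tendsto (fun N : ℕ => (N : ℝ)⁻¹ * S N) atTop (𝓝 0) := by
  have h1 : Tendsto (fun N : ℕ => (N : ℝ)⁻¹ * C) atTop (𝓝 0) := by
    have := (tendsto_inv_atTop_zero.comp (tendsto_natCast_atTop_atTop (R := ℝ))).mul_const C
    simpa using this
  refine squeeze_zero_norm (fun N => ?_) h1
  rw [norm_mul, Real.norm_eq_abs, Real.norm_eq_abs, abs_of_nonneg (by positivity)]
  exact mul_le_mul_of_nonneg_left (h N) (by positivity)

theorem sum_shift {v : ℕ → ℝ} {m : ℕ} (hv : ∀ n, v (n + m) = v n) (a : ℕ) :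
    ∑ k ∈ Finset.range m, v (a + k) = ∑ k ∈ Finset.range m, v k := by
  induction a with
  | zero => simp
  | succ a ih =>
    rw [← ih]
    have h1 := Finset.sum_range_succ (fun k => v (a + k)) m
    have h2 := Finset.sum_range_succ' (fun k => v (a + k)) m
    have h3 : v (a + m) = v (a + 0) := by rw [hv, add_zero]
    have h4 : ∑ k ∈ Finset.range m, v (a + 1 + k) = ∑ k ∈ Finset.range m, v (a + (k + 1)) := by
      refine Finset.sum_congr rfl fun k _ => ?_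
      congr 1
      ring
    rw [h4]
    linarith

theorem cesaro_periodic {v : ℕ → ℝ} {m : ℕ} (hm : 0 < m) (hv : ∀ n, v (n + m) = v n) :
    Tendsto (fun N : ℕ => (N : ℝ)⁻¹ * ∑ n ∈ Finset.range N, v n) atTop
      (𝓝 ((m : ℝ)⁻¹ * ∑ k ∈ Finset.range m, v k)) := by
  obtain ⟨μ, hμ⟩ : ∃ μ, μ = (m : ℝ)⁻¹ * ∑ k ∈ Finset.range m, v k := ⟨_, rfl⟩
  have hm0 : (m : ℝ) ≠ 0 := by positivity
  have hper : ∀ N, ∑ n ∈ Finset.range (N + m), (v n - μ) = ∑ n ∈ Finset.range N, (v n - μ) := by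
    intro N
    rw [Finset.sum_range_add, Finset.sum_sub_distrib (f := fun k => v (N + k)), sum_shift hv]
    have : ∑ k ∈ Finset.range m, v k - ∑ _k ∈ Finset.range m, μ = 0 := by
      rw [Finset.sum_const, Finset.card_range, nsmul_eq_mul, hμ]
      field_simp
      ring
    rw [this, add_zero]
  have hmod : ∀ N, ∑ n ∈ Finset.range N, (v n - μ) = ∑ n ∈ Finset.range (N % m), (v n - μ) := by
    intro N
    exact ((show Function.Periodic (fun N => ∑ n ∈ Finset.range N, (v n - μ)) m from hper).map_mod_nat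
      N).symm
  have hb : ∀ N, |∑ n ∈ Finset.range N, (v n - μ)| ≤
      ∑ j ∈ Finset.range m, |∑ n ∈ Finset.range j, (v n - μ)| := by
    intro N
    rw [hmod]
    exact Finset.single_le_sum (f := fun j => |∑ n ∈ Finset.range j, (v n - μ)|)
      (fun j _ => abs_nonneg _) (Finset.mem_range.mpr (Nat.mod_lt _ hm))
  have h1 := cesaro_zero_of_bdd hb
  rw [← hμ]
  have h2 := h1.add_const μ
  rw [zero_add] at h2
  refine h2.congr' ?_
  filter_upwards [eventually_ne_atTop 0] with N hN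
  have hN0 : (N : ℝ) ≠ 0 := by exact_mod_cast hN
  rw [Finset.sum_sub_distrib, Finset.sum_const, Finset.card_range, nsmul_eq_mul]
  field_simp
  ring

/-! ### Hyperbolic parameters -/

/-- parameters with an attracting cycle -/
def Hyp (d : ℕ) : Set ℂ := {c | ∃ m z, IsAttractingCycle (fc d c) m z}

/-- Cesàro means of the orbit of the critical value -/
noncomputable def aa (d N : ℕ) (c : ℂ) : ℝ := (N : ℝ)⁻¹ * ∑ n ∈ Finset.range N, ‖P d (n + 1) c‖ ^ 2

theorem continuous_fc (d : ℕ) (c : ℂ) : Continuous (fc d c) := by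
  unfold fc
  fun_prop

theorem orbit_conv {d : ℕ} (hd : 2 ≤ d) {c z : ℂ} {m : ℕ} (hz : IsAttractingCycle (fc d c) m z) :
    ∃ l : ℕ, Tendsto (fun n => P d n c - (fc d c)^[n] ((fc d c)^[l] z)) atTop (𝓝 0) := by
  obtain ⟨l, hl⟩ := Pool.Agent.TH363.CD.crit_conv hd hz
  refine ⟨l, ?_⟩
  have hm : 0 < m := hz.1
  have hper : (fc d c)^[m] z = z := hz.2.1
  obtain ⟨w, hw⟩ : ∃ w, w = (fc d c)^[l] z := ⟨_, rfl⟩
  have hpw : (fc d c)^[m] w = w := by
    rw [hw, ← Function.iterate_add_apply, add_comm, Function.iterate_add_apply, hper]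
  have hl' : Tendsto (fun k : ℕ => P d (m * k) c) atTop (𝓝 w) := by
    rw [hw]; exact hl
  rw [← hw]
  have hpk : ∀ k, (fc d c)^[m * k] w = w := by
    intro k
    exact (Function.IsPeriodicPt.mul_const hpw k)
  have hres : ∀ j, Tendsto (fun k : ℕ => P d (m * k + j) c - (fc d c)^[m * k + j] w) atTop
      (𝓝 0) := by
    intro j
    have h1 : ∀ k, P d (m * k + j) c = (fc d c)^[j] (P d (m * k) c) := by
      intro k
      show (fc d c)^[m * k + j] 0 = (fc d c)^[j] ((fc d c)^[m * k] 0)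
      rw [← Function.iterate_add_apply, add_comm]
    have h2 : ∀ k, (fc d c)^[m * k + j] w = (fc d c)^[j] w := by
      intro k
      rw [add_comm, Function.iterate_add_apply, hpk]
    have h3 : Tendsto (fun k : ℕ => (fc d c)^[j] (P d (m * k) c)) atTop (𝓝 ((fc d c)^[j] w)) :=
      (((continuous_fc d c).iterate j).tendsto w).comp hl'
    have h4 := h3.sub_const ((fc d c)^[j] w)
    rw [sub_self] at h4
    refine h4.congr fun k => ?_
    rw [h1, h2]
  rw [Metric.tendsto_atTop]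
  intro ε hε
  have h5 : ∀ j, ∃ K, ∀ k ≥ K, dist (P d (m * k + j) c - (fc d c)^[m * k + j] w) 0 < ε :=
    fun j => Metric.tendsto_atTop.mp (hres j) ε hε
  choose K hK using h5
  refine ⟨m * ((Finset.range m).sup K + 1), fun n hn => ?_⟩
  have h6 := hK (n % m) (n / m) ?_
  · rwa [Nat.div_add_mod] at h6
  · have h7 : (Finset.range m).sup K + 1 ≤ n / m := by
      rw [Nat.le_div_iff_mul_le hm, mul_comm]
      exact hn
    have h8 : K (n % m) ≤ (Finset.range m).sup K :=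
      Finset.le_sup (Finset.mem_range.mpr (Nat.mod_lt _ hm))
    omega

theorem ces_conv {d : ℕ} (hd : 2 ≤ d) {c z : ℂ} {m : ℕ} (hz : IsAttractingCycle (fc d c) m z) :
    Tendsto (fun N => aa d N c) atTop
      (𝓝 ((m : ℝ)⁻¹ * ∑ k ∈ Finset.range m, ‖(fc d c)^[k] z‖ ^ 2)) := by
  obtain ⟨l, hl⟩ := orbit_conv hd hz
  have hm : 0 < m := hz.1
  have hper : (fc d c)^[m] z = z := hz.2.1
  have hc : c ∈ multibrotSet d := Pool.Agent.TH363.CD.mem_multibrot hd hz
  have hb : ∀ n, ‖P d n c‖ ≤ 2 := (mem_multibrot_iff hd c).1 hc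
  obtain ⟨v, hv⟩ : ∃ v : ℕ → ℝ, v = fun n => ‖(fc d c)^[n] z‖ ^ 2 := ⟨_, rfl⟩
  have hvper : ∀ n, v (n + m) = v n := by
    intro n
    rw [hv]
    show ‖(fc d c)^[n + m] z‖ ^ 2 = _
    rw [Function.iterate_add_apply, hper]
  -- the comparison
  have h1 : Tendsto (fun n => ‖P d (n + 1) c‖ ^ 2 - v (l + 1 + n)) atTop (𝓝 0) := by
    have h2 : Tendsto (fun n => ‖P d (n + 1) c - (fc d c)^[n + 1] ((fc d c)^[l] z)‖) atTop (𝓝 0) := by
      have := (hl.comp (tendsto_add_atTop_nat 1)).norm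
      rw [norm_zero] at this
      exact this
    have hbw : ∀ n, ‖(fc d c)^[n] z‖ ≤ ∑ k ∈ Finset.range m, ‖(fc d c)^[k] z‖ := by
      intro n
      have h3 : (fc d c)^[n] z = (fc d c)^[n % m] z :=
        ((show Function.IsPeriodicPt (fc d c) m z from hper).iterate_mod_apply n).symm
      rw [h3]
      exact Finset.single_le_sum (f := fun k => ‖(fc d c)^[k] z‖) (fun k _ => norm_nonneg _)
        (Finset.mem_range.mpr (Nat.mod_lt _ hm))
    obtain ⟨D, hD⟩ : ∃ D, D = 2 + ∑ k ∈ Finset.range m, ‖(fc d c)^[k] z‖ := ⟨_, rfl⟩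
    have h3 := h2.mul_const D
    rw [zero_mul] at h3
    refine squeeze_zero_norm (fun n => ?_) h3
    have h4 : (fc d c)^[n + 1] ((fc d c)^[l] z) = (fc d c)^[l + 1 + n] z := by
      rw [← Function.iterate_add_apply]
      congr 1
      omega
    rw [hv, h4, Real.norm_eq_abs]
    have h5 : ‖P d (n + 1) c‖ ^ 2 - ‖(fc d c)^[l + 1 + n] z‖ ^ 2 =
        (‖P d (n + 1) c‖ - ‖(fc d c)^[l + 1 + n] z‖) *
          (‖P d (n + 1) c‖ + ‖(fc d c)^[l + 1 + n] z‖) := by ring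
    show |‖P d (n + 1) c‖ ^ 2 - ‖(fc d c)^[l + 1 + n] z‖ ^ 2| ≤ _
    rw [h5, abs_mul, abs_of_nonneg (by positivity :
      0 ≤ ‖P d (n + 1) c‖ + ‖(fc d c)^[l + 1 + n] z‖)]
    apply mul_le_mul (abs_norm_sub_norm_le _ _) _ (by positivity) (norm_nonneg _)
    rw [hD]
    exact add_le_add (hb _) (hbw _)
  have h2 := h1.cesaro
  have h3 : Tendsto (fun N : ℕ => (N : ℝ)⁻¹ * ∑ n ∈ Finset.range N, v (l + 1 + n)) atTop
      (𝓝 ((m : ℝ)⁻¹ * ∑ k ∈ Finset.range m, v (l + 1 + k))) := by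
    apply cesaro_periodic hm
    intro n
    rw [← add_assoc, hvper]
  rw [sum_shift hvper] at h3
  have h4 := h2.add h3
  rw [zero_add, hv] at h4
  refine h4.congr fun N => ?_
  rw [← mul_add, ← Finset.sum_add_distrib]
  unfold aa
  congr 1
  refine Finset.sum_congr rfl fun n _ => ?_
  ring

theorem isOpen_Hyp (d : ℕ) : IsOpen (Hyp d) := by
  rw [isOpen_iff_mem_nhds]
  rintro c ⟨m, z, hz⟩
  filter_upwards [Pool.Agent.N673.QC.persist hz] with c' hc'
  exact ⟨m, hc'⟩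

theorem Hyp_sub {d : ℕ} (hd : 2 ≤ d) : Hyp d ⊆ multibrotSet d := by
  rintro c ⟨m, z, hz⟩
  exact Pool.Agent.TH363.CD.mem_multibrot hd hz

theorem zero_mem_Hyp {d : ℕ} (hd : 2 ≤ d) : (0 : ℂ) ∈ Hyp d := by
  refine ⟨1, 0, one_pos, ?_, ?_, ?_⟩
  · show (fc d 0)^[1] 0 = 0
    rw [Function.iterate_one]
    unfold fc
    rw [zero_pow (by omega), add_zero]
  · rw [Function.iterate_one]
    unfold fc
    fun_prop
  · rw [Function.iterate_one]
    have h1 : HasDerivAt (fc d 0) ((d : ℂ) * 0 ^ (d - 1)) 0 := by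
      unfold fc
      exact (hasDerivAt_pow d (0 : ℂ)).add_const 0
    rw [h1.deriv, zero_pow (by omega), mul_zero, norm_zero]
    exact one_pos

/-- The disc of radius `rr d` is contained in the main hyperbolic component. -/
theorem ball_Hyp {d : ℕ} (hd : 2 ≤ d) : ball (0 : ℂ) (rr d) ⊆ Hyp d := by
  intro c hc
  obtain ⟨m, z, hz⟩ := zero_mem_Hyp hd
  obtain ⟨w, hw⟩ := Pool.Agent.N673.QC.component hd isOpen_ball (convex_ball (0 : ℂ) (rr d)).isPreconnected
    (fun x hx => disc_subset hd (mem_ball_zero_iff.mp hx).le) (mem_ball_self (rr_pos hd)) hz c hc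
  exact ⟨m, w, hw⟩

theorem quarter_le_rr {d : ℕ} (hd : 2 ≤ d) : 1 / 4 ≤ rr d := by
  have hdr : (2 : ℝ) ≤ d := by exact_mod_cast hd
  have h1 : 1 / 2 ≤ sr d := by
    by_contra h
    push Not at h
    have h2 : sr d ^ (d - 1) < (1 / 2) ^ (d - 1) := pow_lt_pow_left₀ h (sr_pos d).le (by omega)
    rw [sr_pow hd] at h2
    have h3 : d ≤ 2 ^ (d - 1) := by
      have := Nat.lt_two_pow_self (n := d - 1)
      omega
    have h4 : (1 / 2 : ℝ) ^ (d - 1) ≤ 1 / d := by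
      rw [one_div_pow]
      apply one_div_le_one_div_of_le (by linarith)
      exact_mod_cast h3
    linarith
  have h2 : 1 / (d : ℝ) ≤ 1 / 2 := one_div_le_one_div_of_le (by norm_num) hdr
  rw [rr_eq hd]
  nlinarith

/-! ### Non-hyperbolic parameters -/

theorem two_steps {d : ℕ} (hd : 2 ≤ d) {c : ℂ} (hc : 1 / 4 ≤ ‖c‖) (n : ℕ) :
    1 / 16 ≤ ‖P d n c‖ ^ 2 + ‖P d (n + 1) c‖ ^ 2 := by
  obtain ⟨x, hx⟩ : ∃ x, x = ‖P d n c‖ := ⟨_, rfl⟩
  obtain ⟨y, hy⟩ : ∃ y, y = ‖P d (n + 1) c‖ := ⟨_, rfl⟩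
  have hx0 : 0 ≤ x := by rw [hx]; positivity
  have hy0 : 0 ≤ y := by rw [hy]; positivity
  have h1 : 1 / 4 ≤ y + x ^ d := by
    have h2 : c = P d (n + 1) c - P d n c ^ d := by rw [P_succ]; ring
    have h3 : ‖c‖ ≤ y + x ^ d := by
      rw [hx, hy, ← norm_pow]
      calc ‖c‖ = ‖P d (n + 1) c - P d n c ^ d‖ := by rw [← h2]
        _ ≤ _ := norm_sub_le _ _
    linarith
  rw [← hx, ← hy]
  rcases le_or_gt 1 x with h2 | h2
  · nlinarith [sq_nonneg y]
  · have h3 : x ^ d ≤ x ^ 2 := pow_le_pow_of_le_one hx0 h2.le hd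
    rcases le_or_gt (1 / 4) y with h4 | h4
    · nlinarith [sq_nonneg x]
    · nlinarith [sq_nonneg x]

theorem aa_lower {d : ℕ} (hd : 2 ≤ d) {c : ℂ} (hc : c ∉ Hyp d) {N : ℕ} (hN : 1 ≤ N) :
    1 / 32 * (1 - (N : ℝ)⁻¹) ≤ aa d N c := by
  have hc4 : 1 / 4 ≤ ‖c‖ := by
    by_contra h
    push Not at h
    exact hc (ball_Hyp hd (mem_ball_zero_iff.mpr (h.trans_le (quarter_le_rr hd))))
  obtain ⟨M, rfl⟩ : ∃ M, N = M + 1 := ⟨N - 1, by omega⟩
  have h1 : ∀ K : ℕ, (K : ℝ) * (1 / 16) ≤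
      2 * ∑ n ∈ Finset.range (K + 1), ‖P d (n + 1) c‖ ^ 2 := by
    intro K
    have h2 : (K : ℝ) * (1 / 16) ≤ ∑ n ∈ Finset.range K, (‖P d (n + 1) c‖ ^ 2 +
        ‖P d (n + 1 + 1) c‖ ^ 2) := by
      have h3 : ∑ _n ∈ Finset.range K, (1 / 16 : ℝ) ≤ ∑ n ∈ Finset.range K,
          (‖P d (n + 1) c‖ ^ 2 + ‖P d (n + 1 + 1) c‖ ^ 2) :=
        Finset.sum_le_sum fun n _ => two_steps hd hc4 (n + 1)
      rwa [Finset.sum_const, Finset.card_range, nsmul_eq_mul] at h3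
    rw [Finset.sum_add_distrib] at h2
    have h3 : ∑ n ∈ Finset.range K, ‖P d (n + 1) c‖ ^ 2 ≤
        ∑ n ∈ Finset.range (K + 1), ‖P d (n + 1) c‖ ^ 2 := by
      rw [Finset.sum_range_succ]
      have : 0 ≤ ‖P d (K + 1) c‖ ^ 2 := by positivity
      linarith
    have h4 : ∑ n ∈ Finset.range K, ‖P d (n + 1 + 1) c‖ ^ 2 ≤
        ∑ n ∈ Finset.range (K + 1), ‖P d (n + 1) c‖ ^ 2 := by
      rw [Finset.sum_range_succ']
      have : 0 ≤ ‖P d (0 + 1) c‖ ^ 2 := by positivity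
      linarith
    linarith
  have h2 := h1 M
  unfold aa
  have hM : (0 : ℝ) < ((M + 1 : ℕ) : ℝ) := by positivity
  have h3 : 1 / 32 * (1 - (((M + 1 : ℕ) : ℝ))⁻¹) = (((M + 1 : ℕ) : ℝ))⁻¹ * (M * (1 / 32)) := by
    field_simp
    push_cast
    ring
  rw [h3]
  apply mul_le_mul_of_nonneg_left _ (by positivity)
  linarith

theorem aa_upper {d : ℕ} (hd : 2 ≤ d) {c : ℂ} (hc : c ∈ multibrotSet d) (N : ℕ) :
    aa d N c ≤ 4 := by
  have hb : ∀ n, ‖P d n c‖ ≤ 2 := (mem_multibrot_iff hd c).1 hc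
  unfold aa
  have h1 : ∑ n ∈ Finset.range N, ‖P d (n + 1) c‖ ^ 2 ≤ ∑ _n ∈ Finset.range N, (4 : ℝ) := by
    refine Finset.sum_le_sum fun n _ => ?_
    have := hb (n + 1)
    nlinarith [norm_nonneg (P d (n + 1) c)]
  rw [Finset.sum_const, Finset.card_range, nsmul_eq_mul] at h1
  rcases Nat.eq_zero_or_pos N with hN | hN
  · subst hN; simp
  · have hN0 : (0 : ℝ) < N := by exact_mod_cast hN
    rw [inv_mul_le_iff₀ hN0]
    exact h1

theorem aa_nonneg (d N : ℕ) (c : ℂ) : 0 ≤ aa d N c := by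
  unfold aa
  positivity

theorem continuous_aa (d N : ℕ) : Continuous (aa d N) := by
  unfold aa
  apply continuous_const.mul
  apply continuous_finsetSum
  intro n _
  exact (continuous_P d (n + 1)).norm.pow 2

end Pool.Agent.U608.ML
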