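import Mathlib
import Pool.Agent.U608.ML.L9

/-!
Cesàro means of the Hilbert transforms: hyperbolic and non-hyperbolic part.
-/

set_option autoImplicit false

open Complex Topology Filter Metric MeasureTheory Set Polynomial

namespace Pool.Agent.U608.ML

open Pool.Agent.H713R2 Pool.Agent.H712R2 N62a1eb23

/-- mean of `|z|²` over the attracting cycle -/
noncomputable def kapc (d : ℕ) (c : ℂ) : ℝ :=
  open Classical in
  if h : ∃ m z, IsAttractingCycle (fc d c) m z then
    (h.choose : ℝ)⁻¹ * ∑ k ∈ Finset.range h.choose, ‖(fc d c)^[k] h.choose_spec.choose‖ ^ 2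
  else 0

theorem ces_lim {d : ℕ} (hd : 2 ≤ d) {c : ℂ} (hc : c ∈ Hyp d) :
    Tendsto (fun N => aa d N c) atTop (𝓝 (kapc d c)) := by
  have h : ∃ m z, IsAttractingCycle (fc d c) m z := hc
  unfold kapc
  rw [dif_pos h]
  exact ces_conv hd h.choose_spec.choose_spec

theorem kapc_eq {d : ℕ} (hd : 2 ≤ d) {c z : ℂ} {m : ℕ} (hz : IsAttractingCycle (fc d c) m z) :
    kapc d c = (m : ℝ)⁻¹ * ∑ k ∈ Finset.range m, ‖(fc d c)^[k] z‖ ^ 2 :=
  tendsto_nhds_unique (ces_lim hd ⟨m, z, hz⟩) (ces_conv hd hz)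

theorem measurableSet_M {d : ℕ} (hd : 2 ≤ d) : MeasurableSet (multibrotSet d) :=
  (isCompact_multibrot hd).isClosed.measurableSet

theorem integrable_w {d : ℕ} (hd : 2 ≤ d) {w : ℂ → ℝ} (hw : Continuous w) {S : Set ℂ}
    (hS : S ⊆ multibrotSet d) : IntegrableOn w S :=
  (hw.continuousOn.integrableOn_compact (isCompact_multibrot hd)).mono_set hS

theorem tendsto_hyp {d : ℕ} (hd : 2 ≤ d) {w : ℂ → ℝ} (hw : Continuous w) (hw0 : ∀ c, 0 ≤ w c) :
    Tendsto (fun N => ∫ c in Hyp d, w c * aa d N c) atTop (𝓝 (∫ c in Hyp d, w c * kapc d c)) := by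
  apply tendsto_integral_of_dominated_convergence (fun c => 4 * w c)
  · intro N
    exact (hw.mul (continuous_aa d N)).aestronglyMeasurable
  · exact (integrable_w hd hw (Hyp_sub hd)).const_mul 4
  · intro N
    refine (ae_restrict_mem (isOpen_Hyp d).measurableSet).mono fun c hc => ?_
    rw [Real.norm_eq_abs, abs_of_nonneg (mul_nonneg (hw0 c) (aa_nonneg d N c)), mul_comm]
    exact mul_le_mul_of_nonneg_right (aa_upper hd (Hyp_sub hd hc) N) (hw0 c)
  · refine (ae_restrict_mem (isOpen_Hyp d).measurableSet).mono fun c hc => ?_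
    exact (ces_lim hd hc).const_mul (w c)

theorem two_sided {d : ℕ} (hd : 2 ≤ d) {w : ℂ → ℝ} (hw : Continuous w) (hw0 : ∀ c, 0 ≤ w c)
    {ε : ℝ} (hε : 0 < ε) : ∀ᶠ N in atTop,
    1 / Real.pi * (∫ c in Hyp d, w c * kapc d c) +
      1 / (32 * Real.pi) * (∫ c in multibrotSet d \ Hyp d, w c) - ε ≤
        1 / Real.pi * ∫ c in multibrotSet d, w c * aa d N c ∧
    1 / Real.pi * ∫ c in multibrotSet d, w c * aa d N c ≤
      1 / Real.pi * (∫ c in Hyp d, w c * kapc d c) +
      4 / Real.pi * (∫ c in multibrotSet d \ Hyp d, w c) + ε := by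
  have hpi := Real.pi_pos
  have hE : MeasurableSet (multibrotSet d \ Hyp d) :=
    (measurableSet_M hd).diff (isOpen_Hyp d).measurableSet
  have hin : ∀ (N : ℕ) (S : Set ℂ), S ⊆ multibrotSet d →
      IntegrableOn (fun c => w c * aa d N c) S :=
    fun N S hS => integrable_w hd (hw.mul (continuous_aa d N)) hS
  have hsplit : ∀ N, ∫ c in multibrotSet d, w c * aa d N c =
      (∫ c in Hyp d, w c * aa d N c) + ∫ c in multibrotSet d \ Hyp d, w c * aa d N c := by
    intro N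
    rw [setIntegral_sdiff (isOpen_Hyp d).measurableSet (hin N _ subset_rfl) (Hyp_sub hd)]
    ring
  have hup : ∀ N, ∫ c in multibrotSet d \ Hyp d, w c * aa d N c ≤
      4 * ∫ c in multibrotSet d \ Hyp d, w c := by
    intro N
    rw [← integral_const_mul]
    apply setIntegral_mono_on (hin N _ sdiff_subset)
      ((integrable_w hd hw sdiff_subset).const_mul 4) hE
    intro c hc
    have := aa_upper hd hc.1 N
    nlinarith [hw0 c]
  have hlo : ∀ N : ℕ, 1 ≤ N → 1 / 32 * (1 - (N : ℝ)⁻¹) * ∫ c in multibrotSet d \ Hyp d, w c ≤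
      ∫ c in multibrotSet d \ Hyp d, w c * aa d N c := by
    intro N hN
    rw [← integral_const_mul]
    apply setIntegral_mono_on ((integrable_w hd hw sdiff_subset).const_mul _)
      (hin N _ sdiff_subset) hE
    intro c hc
    have := aa_lower hd hc.2 hN
    rw [mul_comm]
    exact mul_le_mul_of_nonneg_left this (hw0 c)
  obtain ⟨Λ, hΛ⟩ : ∃ Λ, Λ = ∫ c in multibrotSet d \ Hyp d, w c := ⟨_, rfl⟩
  rw [← hΛ] at hup hlo ⊢
  have h1 : Tendsto (fun N => 1 / Real.pi * ∫ c in Hyp d, w c * aa d N c) atTop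
      (𝓝 (1 / Real.pi * ∫ c in Hyp d, w c * kapc d c)) := (tendsto_hyp hd hw hw0).const_mul _
  have h2 : Tendsto (fun N : ℕ => 1 / Real.pi * (1 / 32 * (1 - (N : ℝ)⁻¹) * Λ)) atTop
      (𝓝 (1 / (32 * Real.pi) * Λ)) := by
    have h3 : Tendsto (fun N : ℕ => (N : ℝ)⁻¹) atTop (𝓝 0) :=
      tendsto_inv_atTop_zero.comp (tendsto_natCast_atTop_atTop (R := ℝ))
    have h4 := ((((h3.const_sub 1).const_mul (1 / 32 : ℝ)).mul_const Λ).const_mul (1 / Real.pi))
    convert! h4 using 2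
    field_simp
    ring
  filter_upwards [Metric.tendsto_nhds.mp h1 (ε / 2) (by linarith),
    Metric.tendsto_nhds.mp h2 (ε / 2) (by linarith), eventually_ge_atTop 1] with N h3 h4 h5
  rw [Real.dist_eq, abs_lt] at h3 h4
  rw [hsplit, mul_add]
  have h6 : 1 / Real.pi * (1 / 32 * (1 - (N : ℝ)⁻¹) * Λ) ≤
      1 / Real.pi * ∫ c in multibrotSet d \ Hyp d, w c * aa d N c :=
    mul_le_mul_of_nonneg_left (hlo N h5) (by positivity)
  have h7 : 1 / Real.pi * ∫ c in multibrotSet d \ Hyp d, w c * aa d N c ≤ 4 / Real.pi * Λ := by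
    have := mul_le_mul_of_nonneg_left (hup N) (by positivity : 0 ≤ 1 / Real.pi)
    calc _ ≤ _ := this
      _ = _ := by ring
  constructor
  · linarith
  · linarith

theorem integral_aa {d : ℕ} (hd : 2 ≤ d) {w : ℂ → ℝ} (hw : Continuous w) (N : ℕ) :
    1 / Real.pi * ∫ c in multibrotSet d, w c * aa d N c =
      (N : ℝ)⁻¹ * ∑ n ∈ Finset.range N,
        (1 / Real.pi * ∫ c in multibrotSet d, w c * ‖P d (n + 1) c‖ ^ 2) := by
  have h1 : ∀ c, w c * aa d N c =
      (N : ℝ)⁻¹ * ∑ n ∈ Finset.range N, w c * ‖P d (n + 1) c‖ ^ 2 := by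
    intro c
    unfold aa
    rw [← Finset.mul_sum]
    ring
  have hin : ∀ n ∈ Finset.range N, Integrable (fun c => w c * ‖P d (n + 1) c‖ ^ 2)
      (volume.restrict (multibrotSet d)) :=
    fun n _ => integrable_w hd (hw.mul ((continuous_P d (n + 1)).norm.pow 2)) subset_rfl
  simp only [h1]
  rw [integral_const_mul, integral_finsetSum _ hin, ← Finset.mul_sum]
  ring

/-- **The Cesàro means of the Hilbert transforms.** -/
theorem cesaro_law {d : ℕ} (hd : 2 ≤ d) {ψ : ℂ → ℂ} (hψ : IsExteriorMap (multibrotSet d) ψ)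
    {G H : ℂ[X]} {γ : ℕ → ℂ}
    (h : ∀ z : ℂ, 1 < ‖z‖ → HasSum (fun m : ℕ => γ m / z ^ m) (G.eval (ψ z) - H.eval z))
    {ε : ℝ} (hε : 0 < ε) : ∀ᶠ N : ℕ in atTop,
    1 / Real.pi * (∫ c in Hyp d, ‖(derivative G).eval c‖ ^ 2 * kapc d c) +
      1 / (32 * Real.pi) * (∫ c in multibrotSet d \ Hyp d, ‖(derivative G).eval c‖ ^ 2) - ε ≤
        (N : ℝ)⁻¹ * ∑ n ∈ Finset.range N, ∑' l : ℕ, (l : ℝ) ^ 2 * ‖γ l‖ ^ 2 / ((d : ℝ) ^ n - l) ∧
    (N : ℝ)⁻¹ * ∑ n ∈ Finset.range N, ∑' l : ℕ, (l : ℝ) ^ 2 * ‖γ l‖ ^ 2 / ((d : ℝ) ^ n - l) ≤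
      1 / Real.pi * (∫ c in Hyp d, ‖(derivative G).eval c‖ ^ 2 * kapc d c) +
      4 / Real.pi * (∫ c in multibrotSet d \ Hyp d, ‖(derivative G).eval c‖ ^ 2) + ε := by
  have hw : Continuous fun c : ℂ => ‖(derivative G).eval c‖ ^ 2 := by fun_prop
  have h1 := (law hd hψ h).2.cesaro
  filter_upwards [two_sided hd hw (fun c => by positivity) (half_pos hε),
    Metric.tendsto_nhds.mp h1 (ε / 2) (half_pos hε)] with N h2 h3
  rw [integral_aa hd hw] at h2
  rw [Real.dist_eq, sub_zero, Finset.sum_sub_distrib, mul_sub, abs_lt] at h3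
  constructor
  · linarith
  · linarith

theorem null_iff {d : ℕ} (hd : 2 ≤ d) : volume (multibrotSet d \ Hyp d) = 0 ↔
    volume (frontier (multibrotSet d)) = 0 ∧ multibrotSet d ⊆ closure (Hyp d) := by
  have hcl : IsClosed (multibrotSet d) := (isCompact_multibrot hd).isClosed
  have hint : Hyp d ⊆ interior (multibrotSet d) := interior_maximal (Hyp_sub hd) (isOpen_Hyp d)
  constructor
  · intro h
    refine ⟨measure_mono_null ?_ h, ?_⟩
    · intro c hc
      refine ⟨hcl.frontier_subset hc, fun hc2 => ?_⟩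
      exact hc.2 (hint hc2)
    · intro p hp
      by_contra hcon
      rw [Metric.mem_closure_iff] at hcon
      push Not at hcon
      obtain ⟨r, hr, h1⟩ := hcon
      have h2 : ∀ c' ∈ ball p r, ¬ ∃ m z, IsAttractingCycle (fun z => z ^ d + c') m z := by
        intro c' hc' h3
        have := h1 c' h3
        rw [mem_ball'] at hc'
        linarith
      have h3 : ball p r ⊆ multibrotSet d :=
        Pool.Agent.H713R2.AR.open_subset hd isOpen_ball (convex_ball p r).isPreconnected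
          (mem_ball_self hr) hp h2
      have h4 : ball p r ⊆ multibrotSet d \ Hyp d := fun c hc => ⟨h3 hc, h2 c hc⟩
      exact (measure_ball_pos volume p hr).ne' (measure_mono_null h4 h)
  · rintro ⟨h1, h2⟩
    refine measure_mono_null ?_ h1
    rintro c ⟨hc1, hc2⟩
    rw [hcl.frontier_eq]
    refine ⟨hc1, fun hc3 => hc2 ?_⟩
    obtain ⟨r, hr, h3⟩ := Metric.isOpen_iff.mp isOpen_interior c hc3
    obtain ⟨c', h4, m, z, hz⟩ := mem_closure_iff.1 (h2 hc1) (ball c r) isOpen_ball (mem_ball_self hr)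
    obtain ⟨w, hw⟩ := Pool.Agent.N673.QC.component hd isOpen_ball (convex_ball c r).isPreconnected
      (h3.trans interior_subset) h4 hz c (mem_ball_self hr)
    exact ⟨m, w, hw⟩

/-- **Coefficient criterion.** -/
theorem criterion {d : ℕ} (hd : 2 ≤ d) {ψ : ℂ → ℂ} (hψ : IsExteriorMap (multibrotSet d) ψ)
    {b : ℕ → ℂ} (hb : HasLaurent ψ b) :
    Tendsto (fun N : ℕ => (N : ℝ)⁻¹ * ∑ n ∈ Finset.range N,
      ∑' l : ℕ, (l : ℝ) ^ 2 * ‖b l‖ ^ 2 / ((d : ℝ) ^ n - l)) atTop
        (𝓝 (1 / Real.pi * ∫ c in Hyp d, kapc d c)) ↔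
      volume (multibrotSet d \ Hyp d) = 0 := by
  have hpi := Real.pi_pos
  have hX : ∀ z : ℂ, 1 < ‖z‖ →
      HasSum (fun m : ℕ => b m / z ^ m) ((X : ℂ[X]).eval (ψ z) - (X : ℂ[X]).eval z) := by
    intro z hz
    rw [eval_X, eval_X]
    exact hb z hz
  have hfin : volume (multibrotSet d \ Hyp d) ≠ ⊤ :=
    ((measure_mono sdiff_subset).trans_lt (isCompact_multibrot hd).measure_lt_top).ne
  have h1 : ∀ ε : ℝ, 0 < ε → _ := fun ε hε => cesaro_law hd hψ hX hε
  have h2 : ∫ c in Hyp d, ‖(derivative (X : ℂ[X])).eval c‖ ^ 2 * kapc d c =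
      ∫ c in Hyp d, kapc d c := by simp
  have h3 : ∫ c in multibrotSet d \ Hyp d, ‖(derivative (X : ℂ[X])).eval c‖ ^ 2 =
      volume.real (multibrotSet d \ Hyp d) := by simp
  rw [h2, h3] at h1
  constructor
  · intro h
    have h4 : 1 / (32 * Real.pi) * volume.real (multibrotSet d \ Hyp d) ≤ 0 := by
      refine le_of_forall_pos_le_add fun ε hε => ?_
      obtain ⟨N, h5, h6⟩ := ((h1 (ε / 2) (half_pos hε)).and
        (Metric.tendsto_nhds.mp h (ε / 2) (half_pos hε))).exists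
      rw [Real.dist_eq, abs_lt] at h6
      linarith [h5.1]
    have h5 : volume.real (multibrotSet d \ Hyp d) ≤ 0 := by
      by_contra hcon
      push Not at hcon
      have : 0 < 1 / (32 * Real.pi) * volume.real (multibrotSet d \ Hyp d) := by positivity
      linarith
    have h6 : volume.real (multibrotSet d \ Hyp d) = 0 := le_antisymm h5 measureReal_nonneg
    exact (measureReal_eq_zero_iff hfin).mp h6
  · intro h
    rw [Metric.tendsto_nhds]
    intro ε hε
    filter_upwards [h1 (ε / 2) (half_pos hε)] with N hN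
    have h4 : volume.real (multibrotSet d \ Hyp d) = 0 := by
      rw [Measure.real, h]
      rfl
    rw [h4, mul_zero, mul_zero, add_zero] at hN
    rw [Real.dist_eq, abs_lt]
    constructor
    · linarith [hN.1]
    · linarith [hN.2]

end Pool.Agent.U608.ML
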