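import Mathlib
import Pool.Agent.U608.ML.L5
import Pool.Agent.TH363.CD.Uniq

/-!
Lower bound for the mean square of the `n`-th point of the critical orbit: the main cardioid.
-/

set_option autoImplicit false

open Complex Topology Filter Metric MeasureTheory Set Polynomial

namespace Pool.Agent.U608.ML

open Pool.Agent.H713R2 Pool.Agent.H713R2.AR Pool.Agent.H712R2 N62a1eb23

/-- the area formula for polynomials on the unit disc, as an inequality -/
theorem disc_lower (F : ℂ[X]) : ‖F.coeff 1‖ ^ 2 / 2 + ‖F.coeff 2‖ ^ 2 / 3 ≤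
    1 / Real.pi * ∫ z in ball (0 : ℂ) 1, ‖F.eval z‖ ^ 2 := by
  obtain ⟨Q, hQ⟩ := Pool.Agent.H713R2.exists_antideriv F
  obtain ⟨D, hD⟩ : ∃ D, D = Q.natDegree + 3 := ⟨_, rfl⟩
  have hg : IsExt 2 (fun _ => (1 : ℂ)) := by
    refine ⟨differentiableOn_const _, rfl, ?_⟩
    intro x _ y _ _ _ h
    simpa using h
  have hH : DifferentiableOn ℂ (Hm (fun _ => (1 : ℂ)) Q D) (ball 0 2) := by
    apply DifferentiableOn.fun_sum
    intro i _
    fun_prop
  obtain ⟨h1, h2⟩ := area_formula (ρ := 1) one_pos (by norm_num) hg hH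
    (fun x _ hx0 => Hm_eq (fun _ => (1 : ℂ)) (by omega) hx0)
  have htc : ∀ k, tc (Hm (fun _ => (1 : ℂ)) Q D) k = if k ≤ D then Q.coeff (D - k) else 0 := by
    intro k
    have h3 := tc_unique (a := fun k => if k ≤ D then Q.coeff (D - k) else 0)
      (F := Hm (fun _ => (1 : ℂ)) Q D) (r := 2) (by norm_num) hH ?_
    · rw [← h3]
    · refine Filter.Eventually.of_forall fun x => ?_
      have h4 : Hm (fun _ => (1 : ℂ)) Q D x =
          ∑ k ∈ Finset.range (D + 1), (if k ≤ D then Q.coeff (D - k) else 0) * x ^ k := by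
        unfold Hm
        rw [← Finset.sum_range_reflect]
        refine Finset.sum_congr rfl fun k hk => ?_
        have hk' := Finset.mem_range.mp hk
        rw [if_pos (by omega), show D + 1 - 1 - k = D - k by omega, one_pow, one_mul,
          show D - (D - k) = k by omega]
      rw [h4]
      apply hasSum_sum_of_ne_finset_zero
      intro k hk
      rw [if_neg (by rw [Finset.mem_range] at hk; omega), zero_mul]
  have hUU : (UU (fun _ => (1 : ℂ)) 1)ᶜ = closedBall 0 1 := by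
    ext z
    rw [mem_compl_iff, mem_closedBall_zero_iff]
    constructor
    · intro h
      by_contra hz
      push Not at hz
      have hz0 : z ≠ 0 := by
        rintro rfl
        rw [norm_zero] at hz
        linarith
      refine h ⟨z⁻¹, ⟨inv_ne_zero hz0, ?_⟩, ?_⟩
      · rw [norm_inv]
        exact inv_lt_one_of_one_lt₀ hz
      · simp
    · rintro hz ⟨x, ⟨hx0, hx⟩, hxz⟩
      simp only [mul_one] at hxz
      rw [← hxz, norm_inv] at hz
      have h3 : 1 < ‖x‖⁻¹ := (one_lt_inv₀ (norm_pos_iff.mpr hx0)).mpr hx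
      linarith
  rw [hUU] at h1
  have h3 : ∫ z in closedBall (0 : ℂ) 1, ‖(derivative Q).eval z‖ ^ 2 =
      ∫ z in ball (0 : ℂ) 1, ‖F.eval z‖ ^ 2 := by
    rw [hQ]
    apply setIntegral_congr_set
    refine ae_eq_set.mpr ⟨?_, ?_⟩
    · have h9 : closedBall (0 : ℂ) 1 \ ball 0 1 ⊆ sphere 0 1 := by
        rintro z ⟨hz1, hz2⟩
        rw [mem_closedBall] at hz1
        rw [mem_ball, not_lt] at hz2
        exact mem_sphere.mpr (le_antisymm hz1 hz2)
      exact measure_mono_null h9 (Measure.addHaar_sphere volume (0 : ℂ) 1)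
    · have h9 : ball (0 : ℂ) 1 \ closedBall 0 1 = ∅ := sdiff_eq_empty.mpr ball_subset_closedBall
      rw [h9, measure_empty]
  rw [h3] at h1
  simp only [one_pow, mul_one] at h1
  -- two terms
  have h4 : ∑ k ∈ ({D - 2, D - 3} : Finset ℕ), ((D : ℝ) - k) *
      ‖tc (Hm (fun _ => (1 : ℂ)) Q D) k‖ ^ 2 ≤ 1 / Real.pi * ∫ z in ball (0 : ℂ) 1, ‖F.eval z‖ ^ 2 := by
    refine sum_le_hasSum _ (fun k _ => ?_) h1
    rw [htc]
    split_ifs with hk
    · have : (k : ℝ) ≤ D := by exact_mod_cast hk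
      have h5 : 0 ≤ (D : ℝ) - k := by linarith
      positivity
    · simp
  refine le_trans (le_of_eq ?_) h4
  rw [Finset.sum_pair (by omega), htc, htc, if_pos (by omega), if_pos (by omega),
    show D - (D - 2) = 2 by omega, show D - (D - 3) = 3 by omega]
  have h5 : F.coeff 1 = Q.coeff 2 * 2 := by
    rw [← hQ, coeff_derivative]
    norm_num
  have h6 : F.coeff 2 = Q.coeff 3 * 3 := by
    rw [← hQ, coeff_derivative]
    norm_num
  have h7 : ((D - 2 : ℕ) : ℝ) = D - 2 := by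
    rw [Nat.cast_sub (by omega)]; norm_num
  have h8 : ((D - 3 : ℕ) : ℝ) = D - 3 := by
    rw [Nat.cast_sub (by omega)]; norm_num
  rw [h5, h6, h7, h8, norm_mul, norm_mul]
  norm_num
  ring

/-- the parametrisation of the main cardioid -/
noncomputable def kap (l : ℂ) : ℂ := l / 2 - l ^ 2 / 4

noncomputable def kapP : ℂ[X] := C (1 / 2) * X - C (1 / 4) * X ^ 2

theorem eval_kapP (l : ℂ) : kapP.eval l = kap l := by
  simp [kapP, kap]
  ring

theorem kap_mem {l : ℂ} (hl : l ∈ ball (0 : ℂ) 1) : kap l ∈ multibrotSet 2 := by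
  rw [mem_ball_zero_iff] at hl
  refine Pool.Agent.TH363.CD.mem_multibrot (n := 2) (m := 1) (z := l / 2) le_rfl ⟨one_pos, ?_, ?_, ?_⟩
  · show (Pool.Agent.W747.MB.f 2 (kap l))^[1] (l / 2) = l / 2
    rw [Function.iterate_one]
    unfold Pool.Agent.W747.MB.f kap
    ring
  · rw [Function.iterate_one]
    unfold Pool.Agent.W747.MB.f
    fun_prop
  · rw [Function.iterate_one]
    have h1 : HasDerivAt (Pool.Agent.W747.MB.f 2 (kap l)) (2 * (l / 2)) (l / 2) := by
      unfold Pool.Agent.W747.MB.f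
      have := (hasDerivAt_pow 2 (l / 2)).add_const (kap l)
      simpa using this
    rw [h1.deriv]
    have : 2 * (l / 2) = l := by ring
    rw [this]
    exact hl

theorem kap_inj : InjOn kap (ball (0 : ℂ) 1) := by
  intro x hx y hy h
  rw [mem_ball_zero_iff] at hx hy
  have h1 : (x - y) * (2 - (x + y)) = 0 := by
    unfold kap at h
    linear_combination 4 * h
  rcases mul_eq_zero.mp h1 with h2 | h2
  · exact sub_eq_zero.mp h2
  · exfalso
    have h3 : (2 : ℂ) = x + y := sub_eq_zero.mp h2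
    have h4 : ‖(2 : ℂ)‖ ≤ ‖x‖ + ‖y‖ := by rw [h3]; exact norm_add_le _ _
    rw [Complex.norm_ofNat] at h4
    linarith

theorem kap_deriv (l : ℂ) : HasDerivAt kap ((1 - l) / 2) l := by
  unfold kap
  have h1 := ((hasDerivAt_id l).div_const 2).sub ((hasDerivAt_pow 2 l).div_const 4)
  convert! h1 using 1
  simp
  ring

/-- `P_(n+1) ∘ kap` -/
noncomputable def RR (n : ℕ) : ℂ[X] := (PP 2 (n + 1)).comp kapP

theorem RR_zero : RR 0 = kapP := by
  unfold RR
  simp [PP]

theorem RR_succ (n : ℕ) : RR (n + 1) = RR n * RR n + kapP := by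
  unfold RR
  show ((PP 2 (n + 1)) ^ 2 + X).comp kapP = _
  simp [sq]

theorem kapP_coeff : kapP.coeff 0 = 0 ∧ kapP.coeff 1 = 1 / 2 ∧ kapP.coeff 2 = -(1 / 4) := by
  refine ⟨?_, ?_, ?_⟩
  · simp [kapP, coeff_X]
  · simp [kapP, coeff_X, coeff_X_pow]
  · simp [kapP, coeff_X, coeff_X_pow]

theorem coeff_RR (n : ℕ) : (RR n).coeff 0 = 0 ∧ (RR n).coeff 1 = 1 / 2 := by
  obtain ⟨h0, h1, -⟩ := kapP_coeff
  induction n with
  | zero => rw [RR_zero]; exact ⟨h0, h1⟩
  | succ n ih =>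
    rw [RR_succ]
    refine ⟨?_, ?_⟩
    · rw [coeff_add, h0, coeff_mul]
      simp [ih.1]
    · rw [coeff_add, h1, coeff_mul]
      simp [Finset.Nat.antidiagonal_succ, ih.1]

theorem coeff_RR_two (n : ℕ) : (RR (n + 1)).coeff 2 = 0 := by
  obtain ⟨-, -, h2⟩ := kapP_coeff
  obtain ⟨ih0, ih1⟩ := coeff_RR n
  rw [RR_succ, coeff_add, h2, coeff_mul]
  simp [Finset.Nat.antidiagonal_succ, ih0, ih1]
  norm_num

/-- **The mean square of the `n`-th point of the critical orbit is at least `5 π / 96`.** -/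
theorem mean_lower {n : ℕ} (hn : 1 ≤ n) :
    5 / 96 ≤ 1 / Real.pi * ∫ c in multibrotSet 2, ‖P 2 (n + 1) c‖ ^ 2 := by
  obtain ⟨m, rfl⟩ : ∃ m, n = m + 1 := ⟨n - 1, by omega⟩
  set F : ℂ[X] := C (1 / 2) * ((1 - X) * RR (m + 1)) with hF
  obtain ⟨h0, h1⟩ := coeff_RR (m + 1)
  have h2 := coeff_RR_two m
  have hF1 : F.coeff 1 = 1 / 4 := by
    have h9 : (X * RR (m + 1)).coeff (0 + 1) = (RR (m + 1)).coeff 0 := coeff_X_mul _ _
    rw [zero_add, h0] at h9
    rw [hF, coeff_C_mul, sub_mul, one_mul, coeff_sub, h1, h9]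
    norm_num
  have hF2 : F.coeff 2 = -(1 / 4) := by
    have h9 : (X * RR (m + 1)).coeff (1 + 1) = (RR (m + 1)).coeff 1 := coeff_X_mul _ _
    rw [one_add_one_eq_two, h1] at h9
    rw [hF, coeff_C_mul, sub_mul, one_mul, coeff_sub, h2, h9]
    norm_num
  have h3 := disc_lower F
  rw [hF1, hF2] at h3
  have h4 : ‖(1 / 4 : ℂ)‖ ^ 2 / 2 + ‖(-(1 / 4) : ℂ)‖ ^ 2 / 3 = 5 / 96 := by
    rw [norm_neg]
    norm_num
  rw [h4] at h3
  refine h3.trans ?_
  have hpi := Real.pi_pos
  have h5 : ∫ z in ball (0 : ℂ) 1, ‖F.eval z‖ ^ 2 =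
      ∫ c in kap '' ball (0 : ℂ) 1, ‖P 2 (m + 1 + 1) c‖ ^ 2 := by
    rw [integral_image_eq_integral_abs_det_fderiv_smul volume measurableSet_ball
      (f' := fun l => (ContinuousLinearMap.toSpanSingleton ℂ ((1 - l) / 2)).restrictScalars ℝ)
      (fun l _ => ((kap_deriv l).hasFDerivAt.restrictScalars ℝ).hasFDerivWithinAt) kap_inj]
    refine setIntegral_congr_fun measurableSet_ball fun l _ => ?_
    rw [Pool.Agent.H713R2.det_mul_real, abs_of_nonneg (by positivity), smul_eq_mul, hF, eval_mul, eval_C, eval_mul,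
      eval_sub, eval_one, eval_X]
    have h6 : (RR (m + 1)).eval l = P 2 (m + 1 + 1) (kap l) := by
      unfold RR
      rw [eval_comp, eval_kapP, eval_PP]
    rw [h6, norm_mul, norm_mul, norm_div]
    norm_num
    ring
  rw [h5]
  have hint : IntegrableOn (fun c => ‖P 2 (m + 1 + 1) c‖ ^ 2) (multibrotSet 2) := by
    apply ContinuousOn.integrableOn_compact (isCompact_multibrot le_rfl)
    exact ((continuous_P 2 (m + 1 + 1)).norm.pow 2).continuousOn
  have h6 : ∫ c in kap '' ball (0 : ℂ) 1, ‖P 2 (m + 1 + 1) c‖ ^ 2 ≤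
      ∫ c in multibrotSet 2, ‖P 2 (m + 1 + 1) c‖ ^ 2 := by
    apply setIntegral_mono_set hint
    · exact Filter.Eventually.of_forall fun c => by positivity
    · apply LE.le.eventuallyLE
      rintro _ ⟨l, hl, rfl⟩
      exact kap_mem hl
  gcongr

end Pool.Agent.U608.ML
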