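import Mathlib
import Pool.Agent.U608.ML.L5
import Pool.Agent.H713R2.Main1

/-!
One-sided inequality for every `n`, and the dichotomy.
-/

set_option autoImplicit false

open Complex Topology Filter Metric MeasureTheory Set Polynomial

namespace Pool.Agent.U608.ML

open Pool.Agent.H713R2 Pool.Agent.H713R2.AR Pool.Agent.H712R2 N62a1eb23

theorem laurent_X {ψ : ℂ → ℂ} {b : ℕ → ℂ} (hb : HasLaurent ψ b) :
    ∀ z : ℂ, 1 < ‖z‖ → HasSum (fun m : ℕ => b m / z ^ m) ((X : ℂ[X]).eval (ψ z) - (X : ℂ[X]).eval z) := by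
  intro z hz
  rw [eval_X, eval_X]
  exact hb z hz

theorem ineq {d : ℕ} (hd : 2 ≤ d) {ψ : ℂ → ℂ} (hψ : IsExteriorMap (multibrotSet d) ψ) {b : ℕ → ℂ}
    (hb : HasLaurent ψ b) {n : ℕ} (hn : 1 ≤ n) :
    1 / Real.pi * ∫ c in multibrotSet d, ‖P d (n + 1) c‖ ^ 2 ≤ 1 / ((d : ℝ) ^ n + 1) +
      ∑ l ∈ Finset.range (d ^ (n + 1) - 2), (l : ℝ) ^ 2 * ‖b l‖ ^ 2 / ((d : ℝ) ^ n - l) := by
  obtain ⟨β, hβ⟩ := exists_beta (d := d) hd
  have h1 := area_n hd hβ n (G := X) (p := 1) le_rfl natDegree_X_le
  have hN : 2 ≤ d ^ n := by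
    calc 2 ≤ d := hd
      _ = d ^ 1 := (pow_one d).symm
      _ ≤ d ^ n := Nat.pow_le_pow_right (by omega) hn
  have hN2 : 2 * d ^ n ≤ d ^ (n + 1) := by
    rw [pow_succ, mul_comm]
    exact Nat.mul_le_mul_left _ hd
  have hJ : ∫ z in multibrotSet d, ‖(derivative (X : ℂ[X])).eval z‖ ^ 2 * ‖P d (n + 1) z‖ ^ 2 =
      ∫ c in multibrotSet d, ‖P d (n + 1) c‖ ^ 2 := by
    congr 1
    funext z
    simp
  rw [hJ] at h1
  obtain ⟨K, hK⟩ : ∃ K, K = d ^ (n + 1) - 2 := ⟨_, rfl⟩
  have h2 := sum_le_hasSum (Finset.range (K + 1)) (fun k hk => ?_) h1.neg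
  · rw [Finset.sum_neg_distrib] at h2
    have h3 := neg_le_neg_iff.mp h2
    refine h3.trans (le_of_eq ?_)
    rw [Finset.sum_range_succ', add_comm]
    have hF : DifferentiableOn ℂ (WW (Hm β X 1) 1) (ball 0 1) := WW_diff (Hm_diff hβ.diff _ _) _
    have he : ∀ k, k < K + 1 → ee d β n (WW (Hm β X 1) 1) k = 0 := fun k hk =>
      ee_zero hβ n hF (by omega)
    congr 1
    · rw [he 0 (by omega), add_zero]
      have hH0 : Hm β X 1 0 = 1 := by
        simp [Hm, Finset.sum_range_succ, coeff_X, hβ.zero]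
      unfold ww
      rw [tc_WW (Hm_diff hβ.diff _ _), tc_zero, hH0]
      push_cast
      norm_num
    · rw [← hK]
      refine Finset.sum_congr rfl fun l hl => ?_
      rw [he (l + 1) (by have := Finset.mem_range.mp hl; omega), add_zero,
        ww_gamma hβ hψ (laurent_X hb) natDegree_X_le natDegree_X_le, norm_mul,
        Complex.norm_natCast, mul_pow]
      push_cast
      congr 1
      ring
  · rw [Left.nonneg_neg_iff]
    apply div_nonpos_of_nonneg_of_nonpos (by positivity)
    rw [Finset.mem_range, not_lt] at hk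
    have h3 : d ^ n + 1 ≤ k := by omega
    have h4 : ((d ^ n + 1 : ℕ) : ℝ) ≤ k := by exact_mod_cast h3
    linarith

theorem aux1 {B : ℝ} (h : 1 ≤ B) : B * (1 / (64 * B)) = 1 / 64 := by
  field_simp

theorem aux2 {S : ℝ} (h : 0 ≤ S) : 1 / (64 * (S + 1)) * S ≤ 1 / 64 := by
  rw [div_mul_eq_mul_div, one_mul, div_le_div_iff₀ (by positivity) (by norm_num)]
  linarith

theorem aux3 {X Y B δ : ℝ} (hX : X ≤ B) (hY : Y ≤ δ ^ 2) (hB : 1 ≤ B) (hδ : 0 < δ) :
    √X * √Y ≤ B * δ := by
  have h1 : √X ≤ B := by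
    rw [Real.sqrt_le_left (by linarith)]
    nlinarith
  have h2 : √Y ≤ δ := by
    rw [Real.sqrt_le_left hδ.le]
    exact hY
  exact mul_le_mul h1 h2 (Real.sqrt_nonneg _) (by linarith)

set_option maxHeartbeats 1000000 in
/-- **Dichotomy.** If the sums stay bounded then `l |b_l|` does not tend to zero: it is large at a
bounded distance from the powers of `d`. -/
theorem dichotomy {d : ℕ} (hd : 2 ≤ d) {ψ : ℂ → ℂ} (hψ : IsExteriorMap (multibrotSet d) ψ)
    {b : ℕ → ℂ} (hb : HasLaurent ψ b) (B : ℝ) :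
    ∃ (K : ℕ) (c : ℝ), 0 < c ∧ ∀ᶠ n : ℕ in atTop,
      ∑ l ∈ Finset.range (d ^ n), (l : ℝ) ^ 2 * ‖b l‖ ^ 2 / ((d : ℝ) ^ n - l) ≤ B →
      ∃ l, d ^ n ≤ l + K ∧ l < d ^ n ∧ c ≤ l * ‖b l‖ := by
  obtain ⟨β, hβ⟩ := exists_beta (d := d) hd
  have hball := ball_subset_multibrot hd
  have ht : (1 / 8 : ℂ) ∈ multibrotSet d := hball (mem_ball_self (by norm_num))
  have hU := dirichlet_u hβ (by norm_num : (0 : ℝ) < 1 / 8) hball
  set U : ℕ → ℝ := fun j => ‖uu β (1 / 8) j‖ with hUdef
  have hU0 : ∀ j, 0 ≤ U j := fun j => norm_nonneg _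
  set A : ℝ := ‖tc (hh β (1 / 8)) 1‖ with hA
  have hA0 : 0 ≤ A := norm_nonneg _
  obtain ⟨B', hB'⟩ : ∃ B', B' = max B 1 := ⟨_, rfl⟩
  have hB1 : 1 ≤ B' := by rw [hB']; exact le_max_right _ _
  have hBB : B ≤ B' := by rw [hB']; exact le_max_left _ _
  obtain ⟨δ, hδ⟩ : ∃ δ : ℝ, δ = 1 / (64 * B') := ⟨_, rfl⟩
  have hδ0 : 0 < δ := by rw [hδ]; positivity
  -- the tail
  obtain ⟨K, hK⟩ : ∃ K : ℕ, ∑' k, (((k + K : ℕ) : ℝ) + 1) * U (k + K) ^ 2 < δ ^ 2 :=
    ((tendsto_sum_nat_add (fun j : ℕ => ((j : ℝ) + 1) * U j ^ 2)).eventually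
      (gt_mem_nhds (by positivity))).exists
  obtain ⟨S, hS⟩ : ∃ S, S = ∑ k ∈ Finset.range K, U k := ⟨_, rfl⟩
  have hS0 : 0 ≤ S := by rw [hS]; exact Finset.sum_nonneg fun k _ => hU0 k
  obtain ⟨c, hc⟩ : ∃ c : ℝ, c = 1 / (64 * (S + 1)) := ⟨_, rfl⟩
  have hc0 : 0 < c := by rw [hc]; positivity
  refine ⟨K, c, hc0, ?_⟩
  have hlim : Tendsto (fun n : ℕ => A * U (d ^ n - 1)) atTop (𝓝 0) := by
    have h1 : Tendsto (fun j : ℕ => ((j : ℝ) + 1) * U j ^ 2) atTop (𝓝 0) := hU.tendsto_atTop_zero
    have h2 : Tendsto (fun j : ℕ => U j ^ 2) atTop (𝓝 0) := by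
      refine squeeze_zero (fun j => by positivity) (fun j => ?_) h1
      have : (0 : ℝ) ≤ j := j.cast_nonneg
      nlinarith [sq_nonneg (U j)]
    have h3 : Tendsto U atTop (𝓝 0) := by
      have h4 := h2.sqrt
      rw [Real.sqrt_zero] at h4
      refine h4.congr fun j => Real.sqrt_sq (hU0 j)
    have h5 : Tendsto (fun n : ℕ => d ^ n - 1) atTop atTop :=
      (tendsto_sub_atTop_nat 1).comp (tendsto_pow_atTop_atTop_of_one_lt (by omega))
    have h6 := (h3.comp h5).const_mul A
    rwa [mul_zero] at h6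
  filter_upwards [hlim.eventually (gt_mem_nhds (show (0 : ℝ) < 1 / 32 by norm_num)),
    eventually_ge_atTop 1] with n hn1 hn hE
  by_contra hcon
  push Not at hcon
  obtain ⟨N, hN⟩ : ∃ N, N = d ^ n := ⟨_, rfl⟩
  have hN2 : 2 ≤ N := by
    rw [hN]
    calc 2 ≤ d := hd
      _ = d ^ 1 := (pow_one d).symm
      _ ≤ d ^ n := Nat.pow_le_pow_right (by omega) hn
  rw [← hN] at hn1 hcon
  have hNr : (d : ℝ) ^ n = N := by rw [hN]; push_cast; rfl
  rw [hNr, ← hN] at hE
  have h1 := basic_ineq hd hβ ht (n := n) hn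
  have h2 := P_ge (d := d) n
  rw [← hN] at h1
  -- reindexing
  set s : ℕ → ℝ := fun l => (l : ℝ) * ‖b l‖ with hs
  have hs0 : ∀ l, 0 ≤ s l := fun l => by simp only [hs]; positivity
  have h3 : ∑ l ∈ Finset.Icc 1 N, (l : ℝ) * ‖tc (hh β (1 / 8)) l‖ * ‖uu β (1 / 8) (N - l)‖ ≤
      A * U (N - 1) + 2 * ∑ k ∈ Finset.range (N - 1), s (N - 1 - k) * U k := by
    have h4 : Finset.Icc 1 N = insert 1 (Finset.Icc 2 N) := by
      ext l
      simp only [Finset.mem_Icc, Finset.mem_insert]
      omega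
    rw [h4, Finset.sum_insert (by simp), Finset.mul_sum]
    apply add_le_add
    · simp [hA, hUdef]
    · apply le_of_eq_of_le (b := ∑ k ∈ Finset.range (N - 1),
        ((N - k : ℕ) : ℝ) * ‖tc (hh β (1 / 8)) (N - k)‖ * ‖uu β (1 / 8) k‖)
      · refine Finset.sum_nbij' (fun l => N - l) (fun k => N - k) ?_ ?_ ?_ ?_ ?_
        · intro l hl
          rw [Finset.mem_Icc] at hl
          rw [Finset.mem_range]
          omega
        · intro k hk
          rw [Finset.mem_range] at hk
          rw [Finset.mem_Icc]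
          omega
        · intro l hl
          rw [Finset.mem_Icc] at hl
          omega
        · intro k hk
          rw [Finset.mem_range] at hk
          omega
        · intro l hl
          rw [Finset.mem_Icc] at hl
          rw [show N - (N - l) = l by omega]
      · refine Finset.sum_le_sum fun k hk => ?_
        have hk' := Finset.mem_range.mp hk
        obtain ⟨l, hl⟩ : ∃ l, N - k = l + 1 := ⟨N - k - 1, by omega⟩
        have hl2 : N - 1 - k = l := by omega
        have hl1 : 1 ≤ l := by omega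
        rw [hl, hl2, tc_hh hβ _ (by omega), ← exterior_coeff hβ hψ hb]
        simp only [hs, hUdef]
        push_cast
        have h5 : (1 : ℝ) ≤ l := by exact_mod_cast hl1
        have h6 : 0 ≤ ‖b l‖ * ‖uu β (1 / 8) k‖ := by positivity
        nlinarith
  -- the low part
  have h5 : ∑ k ∈ Finset.range (N - 1), s (N - 1 - k) * U k ≤
      c * S + B' * δ := by
    have h6 : ∑ k ∈ Finset.range (N - 1), s (N - 1 - k) * U k =
        ∑ k ∈ (Finset.range (N - 1)).filter (· < K), s (N - 1 - k) * U k +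
        ∑ k ∈ (Finset.range (N - 1)).filter (¬ · < K), s (N - 1 - k) * U k :=
      (Finset.sum_filter_add_sum_filter_not _ _ _).symm
    rw [h6]
    apply add_le_add
    · calc ∑ k ∈ (Finset.range (N - 1)).filter (· < K), s (N - 1 - k) * U k
          ≤ ∑ k ∈ (Finset.range (N - 1)).filter (· < K), c * U k := by
            refine Finset.sum_le_sum fun k hk => ?_
            rw [Finset.mem_filter, Finset.mem_range] at hk
            have h7 := hcon (N - 1 - k) (by omega) (by omega)
            have := hU0 k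
            simp only [hs]
            gcongr
        _ ≤ ∑ k ∈ Finset.range K, c * U k := by
            apply Finset.sum_le_sum_of_subset_of_nonneg
            · intro k hk
              rw [Finset.mem_filter] at hk
              exact Finset.mem_range.mpr hk.2
            · intro k _ _
              exact mul_nonneg hc0.le (hU0 k)
        _ = c * S := by rw [hS, Finset.mul_sum]
    · -- Cauchy-Schwarz
      have h7 := Real.sum_mul_le_sqrt_mul_sqrt ((Finset.range (N - 1)).filter (¬ · < K))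
        (fun k => s (N - 1 - k) * √(((k : ℝ) + 1)⁻¹)) (fun k => √((k : ℝ) + 1) * U k)
      have h8 : ∑ k ∈ (Finset.range (N - 1)).filter (¬ · < K), s (N - 1 - k) * U k =
          ∑ k ∈ (Finset.range (N - 1)).filter (¬ · < K),
            s (N - 1 - k) * √(((k : ℝ) + 1)⁻¹) * (√((k : ℝ) + 1) * U k) := by
        refine Finset.sum_congr rfl fun k _ => ?_
        have h9 : √(((k : ℝ) + 1)⁻¹) * √((k : ℝ) + 1) = 1 := by
          rw [← Real.sqrt_mul (by positivity), inv_mul_cancel₀ (by positivity), Real.sqrt_one]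
        linear_combination (-(s (N - 1 - k) * U k)) * h9
      rw [h8]
      refine h7.trans ?_
      have h9 : ∑ k ∈ (Finset.range (N - 1)).filter (¬ · < K),
          (s (N - 1 - k) * √(((k : ℝ) + 1)⁻¹)) ^ 2 ≤ B' := by
        refine le_trans ?_ (hE.trans hBB)
        have h10 : ∑ l ∈ Finset.range N, (l : ℝ) ^ 2 * ‖b l‖ ^ 2 / ((N : ℝ) - l) =
            ∑ k ∈ Finset.range N, (s (N - 1 - k) * √(((k : ℝ) + 1)⁻¹)) ^ 2 := by
          rw [← Finset.sum_range_reflect]
          refine Finset.sum_congr rfl fun k hk => ?_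
          have hk' := Finset.mem_range.mp hk
          rw [mul_pow, Real.sq_sqrt (by positivity)]
          simp only [hs]
          have h11 : ((N - 1 - k : ℕ) : ℝ) = N - 1 - k := by
            rw [Nat.sub_sub, Nat.cast_sub (by omega)]; push_cast; ring
          rw [mul_pow, div_eq_mul_inv]
          congr 2
          rw [h11]
          ring
        rw [h10]
        apply Finset.sum_le_sum_of_subset_of_nonneg
        · intro k hk
          rw [Finset.mem_filter, Finset.mem_range] at hk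
          exact Finset.mem_range.mpr (by omega)
        · intro k _ _
          positivity
      have h10 : ∑ k ∈ (Finset.range (N - 1)).filter (¬ · < K), (√((k : ℝ) + 1) * U k) ^ 2 ≤ δ ^ 2 := by
        refine le_trans ?_ hK.le
        have h11 : Summable fun k : ℕ => (((k + K : ℕ) : ℝ) + 1) * U (k + K) ^ 2 :=
          (summable_nat_add_iff K).mpr hU
        calc ∑ k ∈ (Finset.range (N - 1)).filter (¬ · < K), (√((k : ℝ) + 1) * U k) ^ 2
            = ∑ j ∈ Finset.range (N - 1 - K), (((j + K : ℕ) : ℝ) + 1) * U (j + K) ^ 2 := by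
              refine Finset.sum_nbij' (fun k => k - K) (fun j => j + K) ?_ ?_ ?_ ?_ ?_
              · intro k hk
                rw [Finset.mem_filter, Finset.mem_range] at hk
                rw [Finset.mem_range]
                omega
              · intro j hj
                rw [Finset.mem_range] at hj
                rw [Finset.mem_filter, Finset.mem_range]
                omega
              · intro k hk
                rw [Finset.mem_filter, Finset.mem_range] at hk
                omega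
              · intro j _
                omega
              · intro k hk
                rw [Finset.mem_filter, Finset.mem_range] at hk
                rw [show k - K + K = k by omega, mul_pow, Real.sq_sqrt (by positivity)]
          _ ≤ _ := h11.sum_le_tsum _ fun j _ => by positivity
      exact aux3 h9 h10 hB1 hδ0
  have h6 : c * S ≤ 1 / 64 := by rw [hc]; exact aux2 hS0
  have h7 : B' * δ = 1 / 64 := by rw [hδ]; exact aux1 hB1
  have h8 : (1 : ℝ) / 8 ≤ A * U (N - 1) + 2 * (c * S + B' * δ) :=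
    h2.trans (h1.trans (h3.trans (by linarith)))
  rw [h7] at h8
  linarith

end Pool.Agent.U608.ML
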