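import Mathlib
import Pool.Agent.U608.ML.L6
import Pool.Agent.H712R2.MultiCoarse

/-!
The mean square of the `n`-th point of the critical orbit over the Multibrot set, for all degrees.
-/

set_option autoImplicit false

open Complex Topology Filter Metric MeasureTheory Set Polynomial
open scoped Pointwise

namespace Pool.Agent.U608.ML

open Pool.Agent.H713R2 Pool.Agent.H713R2.AR Pool.Agent.H712R2 N62a1eb23

theorem disc_moment {r : ℝ} (hr : 0 ≤ r) :
    ∫ c in closedBall (0 : ℂ) r, ‖c‖ ^ 2 = Real.pi * (r ^ 4 / 2) := by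
  have h1 : ∫ c in closedBall (0 : ℂ) r, ‖c‖ ^ 2 =
      ∫ c : ℂ, (fun y : ℝ => if y ≤ r then y ^ 2 else 0) ‖c‖ := by
    rw [← integral_indicator isClosed_closedBall.measurableSet]
    congr 1
    funext c
    by_cases hc : ‖c‖ ≤ r
    · rw [indicator_of_mem (mem_closedBall_zero_iff.mpr hc)]
      simp [hc]
    · rw [indicator_of_notMem (fun h => hc (mem_closedBall_zero_iff.mp h))]
      simp [hc]
  have h0 := integral_fun_norm_addHaar (volume : Measure ℂ)
    (fun y : ℝ => if y ≤ r then y ^ 2 else 0)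
  rw [h1, h0, Complex.finrank_real_complex]
  have h2 : volume.real (ball (0 : ℂ) 1) = Real.pi := by
    rw [Measure.real, Complex.volume_ball]
    simp
  rw [h2]
  have h3 : ∫ y in Ioi (0 : ℝ), y ^ (2 - 1) • (if y ≤ r then y ^ 2 else 0) = r ^ 4 / 4 := by
    have h4 : ∫ y in Ioi (0 : ℝ), y ^ (2 - 1) • (if y ≤ r then y ^ 2 else 0) =
        ∫ y in Ioc (0 : ℝ) r, y ^ 3 := by
      rw [← integral_indicator measurableSet_Ioi, ← integral_indicator measurableSet_Ioc]
      congr 1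
      funext y
      by_cases hy0 : 0 < y
      · rw [indicator_of_mem (mem_Ioi.mpr hy0)]
        by_cases hy : y ≤ r
        · rw [indicator_of_mem (mem_Ioc.mpr ⟨hy0, hy⟩), if_pos hy, smul_eq_mul]
          ring
        · rw [indicator_of_notMem (fun h => hy h.2), if_neg hy, smul_zero]
      · rw [indicator_of_notMem (fun h => hy0 (mem_Ioi.mp h)),
          indicator_of_notMem (fun h => hy0 (mem_Ioc.mp h).1)]
    rw [h4, ← intervalIntegral.integral_of_le hr, integral_pow]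
    norm_num
  rw [h3]
  simp only [nsmul_eq_mul, smul_eq_mul]
  push_cast
  ring

theorem integrable_P {d : ℕ} (hd : 2 ≤ d) (n : ℕ) {S : Set ℂ} (hS : S ⊆ multibrotSet d) :
    IntegrableOn (fun c => ‖P d n c‖ ^ 2) S := by
  have h : IntegrableOn (fun c => ‖P d n c‖ ^ 2) (multibrotSet d) := by
    apply ContinuousOn.integrableOn_compact (isCompact_multibrot hd)
    exact ((continuous_P d n).norm.pow 2).continuousOn
  exact h.mono_set hS

theorem coeff_PP {d : ℕ} (hd : 2 ≤ d) (n : ℕ) : (PP d (n + 1)).coeff 0 = 0 ∧ (PP d (n + 1)).coeff 1 = 1 := by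
  have h0 : ∀ k, (PP d k).coeff 0 = 0 := by
    intro k
    induction k with
    | zero => simp [PP]
    | succ k ih =>
      show ((PP d k) ^ d + X).coeff 0 = 0
      rw [coeff_add, coeff_zero_eq_eval_zero, eval_pow, ← coeff_zero_eq_eval_zero, ih,
        zero_pow (by omega)]
      simp
  refine ⟨h0 _, ?_⟩
  show ((PP d n) ^ d + X).coeff 1 = 1
  have h2 : X ^ d ∣ (PP d n) ^ d := pow_dvd_pow_of_dvd (X_dvd_iff.mpr (h0 n)) d
  have h3 : ((PP d n) ^ d).coeff 1 = 0 := (X_pow_dvd_iff.mp h2) 1 (by omega)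
  rw [coeff_add, h3]
  simp

theorem mean_lower_gen {d : ℕ} (hd : 2 ≤ d) (n : ℕ) :
    rr d ^ 4 / 2 ≤ 1 / Real.pi * ∫ c in multibrotSet d, ‖P d (n + 1) c‖ ^ 2 := by
  obtain ⟨r, hr⟩ : ∃ r, r = rr d := ⟨_, rfl⟩
  have hr0 : 0 < r := by rw [hr]; exact rr_pos hd
  have h1 := disc_lower ((PP d (n + 1)).comp (C (r : ℂ) * X))
  have h2 : ((PP d (n + 1)).comp (C (r : ℂ) * X)).coeff 1 = r := by
    rw [comp_C_mul_X_coeff, (coeff_PP hd n).2]
    simp
  rw [h2] at h1
  have h3 : (fun z : ℂ => ‖((PP d (n + 1)).comp (C (r : ℂ) * X)).eval z‖ ^ 2) =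
      fun z => ‖P d (n + 1) (r • z)‖ ^ 2 := by
    funext z
    rw [eval_comp, eval_mul, eval_C, eval_X, eval_PP, Complex.real_smul]
  rw [h3, Measure.setIntegral_comp_smul_of_pos volume (fun c => ‖P d (n + 1) c‖ ^ 2) _ hr0,
    Complex.finrank_real_complex, smul_eq_mul] at h1
  have h4 : r • ball (0 : ℂ) 1 = ball 0 r := by
    rw [_root_.smul_ball hr0.ne']
    simp [abs_of_pos hr0]
  rw [h4] at h1
  have h5 : ∫ c in ball (0 : ℂ) r, ‖P d (n + 1) c‖ ^ 2 ≤
      ∫ c in multibrotSet d, ‖P d (n + 1) c‖ ^ 2 := by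
    apply setIntegral_mono_set (integrable_P hd _ subset_rfl)
    · exact Filter.Eventually.of_forall fun c => by positivity
    · apply LE.le.eventuallyLE
      intro c hc
      rw [mem_ball_zero_iff, hr] at hc
      exact disc_subset hd hc.le
  have hpi := Real.pi_pos
  rw [← hr]
  rw [Complex.norm_real, Real.norm_eq_abs, sq_abs] at h1
  have h6 : (r ^ 2 / 2) * r ^ 2 ≤ 1 / Real.pi * ∫ c in ball (0 : ℂ) r, ‖P d (n + 1) c‖ ^ 2 := by
    have h7 : r ^ 2 / 2 ≤ 1 / Real.pi * ((r ^ 2)⁻¹ * ∫ c in ball (0 : ℂ) r, ‖P d (n + 1) c‖ ^ 2) := by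
      refine le_trans ?_ h1
      have : 0 ≤ ‖((PP d (n + 1)).comp (C (r : ℂ) * X)).coeff 2‖ ^ 2 / 3 := by positivity
      linarith
    calc (r ^ 2 / 2) * r ^ 2
        ≤ (1 / Real.pi * ((r ^ 2)⁻¹ * ∫ c in ball (0 : ℂ) r, ‖P d (n + 1) c‖ ^ 2)) * r ^ 2 := by
          gcongr
      _ = _ := by field_simp
  calc r ^ 4 / 2 = (r ^ 2 / 2) * r ^ 2 := by ring
    _ ≤ _ := h6
    _ ≤ _ := by gcongr

/-- Uniform asymptotics of the mean squares. -/
theorem mean_asym {d : ℕ} (hd : 3 ≤ d) (n : ℕ) :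
    |1 / Real.pi * (∫ c in multibrotSet d, ‖P d (n + 1) c‖ ^ 2) - 1 / 2| ≤
      30 * Real.log d / (d - 1) := by
  have hd2 : 2 ≤ d := by omega
  have hdr : (3 : ℝ) ≤ d := by exact_mod_cast hd
  have hpi := Real.pi_pos
  obtain ⟨r, hr⟩ : ∃ r, r = rr d := ⟨_, rfl⟩
  obtain ⟨s, hs⟩ : ∃ s, s = sr d := ⟨_, rfl⟩
  have hr0 : 0 < r := by rw [hr]; exact rr_pos hd2
  have hs0 : 0 < s := by rw [hs]; exact sr_pos d
  have hs1 : s < 1 := by rw [hs]; exact sr_lt_one hd2
  have hrs : r = s * (1 - 1 / d) := by rw [hr, hs]; exact rr_eq hd2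
  have hrs1 : r ≤ s := by
    rw [hrs]
    have : (0 : ℝ) ≤ 1 / d := by positivity
    nlinarith
  have hsd : s ^ d = s / d := by rw [hs]; exact sr_pow' hd2
  have hrr : r = s - s ^ d := by rw [hr, hs]; rfl
  -- the orbit of small parameters
  have key : ∀ c : ℂ, ‖c‖ ≤ r → ∀ k, ‖P d k c‖ ≤ s := by
    intro c hc k
    induction k with
    | zero => rw [P_zero, norm_zero]; exact hs0.le
    | succ k ih =>
      rw [P_succ]
      calc ‖P d k c ^ d + c‖ ≤ ‖P d k c ^ d‖ + ‖c‖ := norm_add_le _ _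
        _ ≤ s ^ d + r := by
            rw [norm_pow]
            exact add_le_add (pow_le_pow_left₀ (norm_nonneg _) ih d) hc
        _ = s := by rw [hrr]; ring
  have hclose : ∀ c : ℂ, ‖c‖ ≤ r → |‖P d (n + 1) c‖ ^ 2 - ‖c‖ ^ 2| ≤ 2 / d := by
    intro c hc
    have h1 : ‖P d (n + 1) c - c‖ ≤ 1 / d := by
      rw [P_succ, add_sub_cancel_right, norm_pow]
      calc ‖P d n c‖ ^ d ≤ s ^ d := pow_le_pow_left₀ (norm_nonneg _) (key c hc n) d
        _ = s / d := hsd
        _ ≤ 1 / d := by gcongr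
    have h2 : |‖P d (n + 1) c‖ - ‖c‖| ≤ 1 / d := (abs_norm_sub_norm_le _ _).trans h1
    have h3 : ‖P d (n + 1) c‖ + ‖c‖ ≤ 2 := by
      have := key c hc (n + 1)
      linarith
    have h4 : ‖P d (n + 1) c‖ ^ 2 - ‖c‖ ^ 2 =
        (‖P d (n + 1) c‖ - ‖c‖) * (‖P d (n + 1) c‖ + ‖c‖) := by ring
    rw [h4, abs_mul, abs_of_nonneg (by positivity : 0 ≤ ‖P d (n + 1) c‖ + ‖c‖)]
    calc |‖P d (n + 1) c‖ - ‖c‖| * (‖P d (n + 1) c‖ + ‖c‖) ≤ (1 / d) * 2 := by gcongr
      _ = 2 / d := by ring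
  have hDM : closedBall (0 : ℂ) r ⊆ multibrotSet d := by
    intro c hc
    rw [mem_closedBall_zero_iff, hr] at hc
    exact disc_subset hd2 hc
  -- the inner part
  have hI1 : IntegrableOn (fun c : ℂ => ‖P d (n + 1) c‖ ^ 2) (closedBall 0 r) :=
    integrable_P hd2 _ hDM
  have hI2 : IntegrableOn (fun c : ℂ => ‖c‖ ^ 2) (closedBall 0 r) := by
    apply ContinuousOn.integrableOn_compact (isCompact_closedBall _ _)
    fun_prop
  have hvol : volume.real (closedBall (0 : ℂ) r) = Real.pi * r ^ 2 := by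
    rw [Measure.real, Complex.volume_closedBall]
    rw [ENNReal.toReal_mul, ENNReal.toReal_pow, ENNReal.toReal_ofReal hr0.le]
    simp [mul_comm]
  have hA : |(∫ c in closedBall (0 : ℂ) r, ‖P d (n + 1) c‖ ^ 2) - Real.pi * (r ^ 4 / 2)| ≤
      2 / d * (Real.pi * r ^ 2) := by
    rw [← disc_moment hr0.le, ← integral_sub hI1 hI2, ← hvol, ← Real.norm_eq_abs]
    apply norm_setIntegral_le_of_norm_le_const (by
      rw [Complex.volume_closedBall]
      exact ENNReal.mul_lt_top (by finiteness) (by finiteness))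
    intro c hc
    rw [Real.norm_eq_abs]
    exact hclose c (mem_closedBall_zero_iff.mp hc)
  -- the outer part
  obtain ⟨R, hR⟩ : ∃ R : ℝ, R = 1 + 1 / ((d : ℝ) - 1) := ⟨_, rfl⟩
  have hd1 : (0 : ℝ) < d - 1 := by linarith
  have hR1 : 1 ≤ R := by rw [hR]; have : 0 ≤ 1 / ((d : ℝ) - 1) := by positivity
                         linarith
  have hMR : multibrotSet d \ closedBall (0 : ℂ) r ⊆ closedBall (0 : ℂ) R \ closedBall 0 r := by
    rintro c ⟨h1, h2⟩
    refine ⟨?_, h2⟩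
    rw [mem_closedBall_zero_iff, hR]
    exact norm_le_outer hd2 h1
  have hvolR : volume.real (closedBall (0 : ℂ) R \ closedBall 0 r) =
      Real.pi * (R ^ 2 - r ^ 2) := by
    have hrR : closedBall (0 : ℂ) r ⊆ closedBall 0 R := closedBall_subset_closedBall (by linarith)
    rw [measureReal_sdiff hrR isClosed_closedBall.measurableSet (by
      rw [Complex.volume_closedBall]
      finiteness), hvol]
    have : volume.real (closedBall (0 : ℂ) R) = Real.pi * R ^ 2 := by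
      rw [Measure.real, Complex.volume_closedBall]
      rw [ENNReal.toReal_mul, ENNReal.toReal_pow, ENNReal.toReal_ofReal (by linarith)]
      simp [mul_comm]
    rw [this]
    ring
  have hB0 : 0 ≤ ∫ c in multibrotSet d \ closedBall (0 : ℂ) r, ‖P d (n + 1) c‖ ^ 2 :=
    integral_nonneg fun c => by positivity
  have hB : ∫ c in multibrotSet d \ closedBall (0 : ℂ) r, ‖P d (n + 1) c‖ ^ 2 ≤
      4 * (Real.pi * (R ^ 2 - r ^ 2)) := by
    have hfin : volume (multibrotSet d \ closedBall (0 : ℂ) r) < ⊤ :=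
      (measure_mono sdiff_subset).trans_lt (isCompact_multibrot hd2).measure_lt_top
    have h1 : ∫ c in multibrotSet d \ closedBall (0 : ℂ) r, ‖P d (n + 1) c‖ ^ 2 ≤
        4 * volume.real (multibrotSet d \ closedBall (0 : ℂ) r) := by
      have h2 := norm_setIntegral_le_of_norm_le_const (μ := volume)
        (s := multibrotSet d \ closedBall (0 : ℂ) r) (f := fun c => ‖P d (n + 1) c‖ ^ 2) (C := 4)
        hfin (fun c hc => by
          rw [Real.norm_eq_abs, abs_of_nonneg (by positivity)]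
          have := (mem_multibrot_iff hd2 c).1 hc.1 (n + 1)
          nlinarith [norm_nonneg (P d (n + 1) c)])
      exact (le_abs_self _).trans h2
    refine h1.trans ?_
    rw [← hvolR]
    apply mul_le_mul_of_nonneg_left _ (by norm_num)
    refine measureReal_mono hMR ?_
    refine ((measure_mono sdiff_subset).trans_lt ?_).ne
    rw [Complex.volume_closedBall]
    finiteness
  have hsplit : ∫ c in multibrotSet d, ‖P d (n + 1) c‖ ^ 2 =
      (∫ c in closedBall (0 : ℂ) r, ‖P d (n + 1) c‖ ^ 2) +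
      ∫ c in multibrotSet d \ closedBall (0 : ℂ) r, ‖P d (n + 1) c‖ ^ 2 := by
    rw [setIntegral_sdiff isClosed_closedBall.measurableSet (integrable_P hd2 _ subset_rfl) hDM]
    ring
  -- numbers
  obtain ⟨L, hL⟩ : ∃ L, L = Real.log d := ⟨_, rfl⟩
  have hL1 : 1 ≤ L := by
    rw [hL, Real.le_log_iff_exp_le (by linarith)]
    exact Real.exp_one_lt_d9.le.trans (by linarith)
  obtain ⟨x, hx⟩ : ∃ x : ℝ, x = 1 / ((d : ℝ) - 1) := ⟨_, rfl⟩
  have hx0 : 0 < x := by rw [hx]; positivity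
  have hx1 : x ≤ 1 / 2 := by
    rw [hx]
    exact one_div_le_one_div_of_le (by norm_num) (by linarith)
  have hdx : 1 / (d : ℝ) ≤ x := by
    rw [hx]
    exact one_div_le_one_div_of_le hd1 (by linarith)
  have hd0 : 0 < 1 / (d : ℝ) := by positivity
  have hsge : 1 - L * x ≤ s := by
    have h1 := sr_ge d
    rw [← hs, ← hL] at h1
    rw [hx]
    rw [mul_one_div]
    exact h1
  have hr1 : r ≤ 1 := by linarith
  have hrge : 1 - L * x - x ≤ r := by
    rw [hrs]
    have h1 : s * (1 / d) ≤ 1 / d := by nlinarith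
    nlinarith
  have hRx : R = 1 + x := by rw [hR, hx]
  rw [hsplit]
  obtain ⟨I1, hI1'⟩ : ∃ I1, I1 = ∫ c in closedBall (0 : ℂ) r, ‖P d (n + 1) c‖ ^ 2 := ⟨_, rfl⟩
  obtain ⟨I2, hI2'⟩ : ∃ I2, I2 = ∫ c in multibrotSet d \ closedBall (0 : ℂ) r,
    ‖P d (n + 1) c‖ ^ 2 := ⟨_, rfl⟩
  rw [← hI1'] at hA ⊢
  rw [← hI2'] at hB hB0 ⊢
  have hA' : |I1 / Real.pi - r ^ 4 / 2| ≤ 2 * x := by
    have h1 : I1 / Real.pi - r ^ 4 / 2 = (I1 - Real.pi * (r ^ 4 / 2)) / Real.pi := by
      field_simp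
    rw [h1, abs_div, abs_of_pos hpi, div_le_iff₀ hpi]
    refine hA.trans ?_
    have h2 : 2 / (d : ℝ) ≤ 2 * x := by
      have : 2 / (d : ℝ) = 2 * (1 / d) := by ring
      rw [this]
      linarith
    calc 2 / (d : ℝ) * (Real.pi * r ^ 2) ≤ 2 * x * (Real.pi * 1) := by
          gcongr
          exact pow_le_one₀ hr0.le hr1
      _ = 2 * x * Real.pi := by ring
  have hB' : I2 / Real.pi ≤ 4 * (R ^ 2 - r ^ 2) := by
    rw [div_le_iff₀ hpi]
    linarith
  have hB0' : 0 ≤ I2 / Real.pi := by positivity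
  have hgoal : 1 / Real.pi * (I1 + I2) = I1 / Real.pi + I2 / Real.pi := by ring
  have hrhs : 30 * Real.log d / ((d : ℝ) - 1) = 30 * L * x := by
    rw [hL, hx]; ring
  rw [hgoal, hrhs]
  clear hclose key hDM hI1 hI2 hMR hvolR hsplit hrhs hgoal hvol hA hB hB0 hI1' hI2' hrr hsd
  rw [abs_le] at hA' ⊢
  have hr2 : 1 - 2 * (L * x + x) ≤ r ^ 2 := by
    have h1 : 1 - (L * x + x) ≤ r := by linarith
    nlinarith [sq_nonneg (1 - r)]
  have hr21 : r ^ 2 ≤ 1 := pow_le_one₀ hr0.le hr1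
  have hr4 : 1 - 4 * (L * x + x) ≤ r ^ 4 := by
    nlinarith [sq_nonneg (1 - r ^ 2)]
  have hr41 : r ^ 4 ≤ 1 := pow_le_one₀ hr0.le hr1
  have hLx : x ≤ L * x := by nlinarith
  have hxx : x ^ 2 ≤ x / 2 := by nlinarith
  constructor
  · nlinarith
  · have h1 : 4 * (R ^ 2 - r ^ 2) ≤ 4 * (2 * x + x ^ 2 + 2 * (L * x + x)) := by
      rw [hRx]
      nlinarith
    nlinarith

end Pool.Agent.U608.ML
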